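import Pool.Agent.Y531.San.Core
import Pool.Agent.Y531.Snet.Num2

/-!
# The thresholds
-/

set_option autoImplicit false
set_option linter.unusedSectionVars false
set_option maxHeartbeats 2000000
set_option synthInstance.maxHeartbeats 200000

namespace Pool.Agent.Y531.San

open MvPolynomial Topology Filter Pool.Agent.W942 Pool.Agent.Y531 Pool.Agent.Y531.Mul
  Pool.Agent.Y531.Hit Pool.Agent.Y531.Hlim Pool.Agent.Y531.Sgen MeasureTheory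
open Pool.Agent.Y531.Smooth (PE)
open Pool.Agent.Y531.Snet (thet_zero_empty exists_loss2 bigA rcost one_le_rcost)

/-- **Analytic networks which vanish along a matrix function are zero.** -/
theorem net_zero (c₀ Δ : ℕ) : ∃ d q₀ n₀ : ℕ, 2 ≤ d ∧ ∀ n, n₀ ≤ n →
    ∀ χ : Equiv.Perm (Fin n) → ℝ, χ 1 ≠ 0 →
    (∀ σ : Equiv.Perm (Fin n), σ.IsCycle → σ.support.card = d → χ σ ≠ 0) →
    ∀ (t : Fin n) (s m : ℕ), s ≤ n ^ c₀ → m ^ q₀ ≤ n →
    ∀ (P : Net (Fin n × Fin n) s Δ m {p | PolyLimit n c₀ Δ q₀ p})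
      (Ω : Set (Fin n × Fin n → ℝ)), IsOpen Ω → ∀ F : (Fin n × Fin n → ℝ) → ℝ,
      (∀ x ∈ Ω, P.Outputs x (F x)) → (∀ x ∈ Ω, eval x (FX χ) = 0 → F x = 0) →
      ∀ x₀ ∈ Ω, eval x₀ (FX χ) = 0 → eval x₀ (PP χ t) ≠ 0 → F =ᶠ[𝓝 x₀] 0 := by
  classical
  set e₀ := c₀ + 2 with he₀
  set w := e₀ + 2 * e₀ * (Δ + 1) + (e₀ + (2 * e₀ + 2 * e₀ * (Δ + 1)) * (Δ + 1)) + 2 with hw
  set κ₁ := (2 * Δ + 2) * (Δ + 1) with hκ₁
  obtain ⟨a, b, T, ha, hb, hba, hT0, hTm, hTK, hsc⟩ := exists_thresholds (κ₁ + 1) w 2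
  set d := a + b with hd
  have hd0 : 0 < d := by omega
  have hd2 : 2 ≤ d := by omega
  obtain ⟨e, he⟩ := exists_sort (ι := Fin b ⊕ Fin a) (d := a + b)
    (by rw [Fintype.card_sum, Fintype.card_fin, Fintype.card_fin, add_comm]) key (key_inj ha hb)
  set C₀ : ℕ := (3 * (6 ^ (Δ + 1) * 2 ^ (2 * d ^ 2 * (Δ + 1)))) *
    (3 * ((bigA Δ d) ^ (Δ + 1) * 2 ^ (d * ((Δ + 1) * (Δ + 2))))) with hC₀
  set C₁ : ℕ := d * 2 ^ (d ^ 2) * C₀ with hC₁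
  set C₂ : ℕ := d * 2 ^ a with hC₂
  refine ⟨d, d * ((Δ + 1) * (Δ + 2)), C₂ ^ w * C₁ + C₂ + 1, hd2, ?_⟩
  intro n hn χ hχ1 hχd t s m hs hm P Ω hΩ F hF hzero x₀ hx₀ hx₀H hx₀P
  by_contra hne
  obtain ⟨hna, hnc, hn1⟩ : C₂ ^ w * C₁ < n ∧ C₂ < n ∧ 1 ≤ n := by
    have h1 : ∀ x z : ℕ, x + z + 1 ≤ n → x < n ∧ z < n ∧ 1 ≤ n := by
      intro x z hxz
      omega
    exact h1 _ _ hn
  set h := Nat.log (2 ^ a) (n / d) with hh'
  have h2a : 1 < 2 ^ a := Nat.one_lt_pow (by omega) (by norm_num)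
  have hC₂' : d ≤ C₂ := Nat.le_mul_of_pos_right _ (by positivity)
  have hnd : n / d ≠ 0 := by
    have : 0 < n / d := Nat.div_pos (by omega) hd0
    omega
  have hlow : (2 ^ a) ^ h ≤ n / d := Nat.pow_log_le_self _ hnd
  have hup : n / d < (2 ^ a) ^ (h + 1) := Nat.lt_pow_succ_log_self h2a _
  have hcardle : Fintype.card (Vtx h e) ≤ Fintype.card (Fin n) := by
    rw [Fintype.card_fin]
    refine (card_vtx ha hb hba e he).trans ?_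
    rw [← hd, pow_mul]
    exact (Nat.mul_le_mul_left _ hlow).trans (Nat.mul_div_le n d)
  obtain ⟨ν₀⟩ := Function.Embedding.nonempty_of_card_le hcardle
  obtain ⟨ν, hν, hνt⟩ : ∃ ν : Vtx h e → Fin n, Function.Injective ν ∧ ν (Mul.star hd2) = t :=
    ⟨fun x => Equiv.swap (ν₀ (Mul.star hd2)) t (ν₀ x),
      (Equiv.swap (ν₀ (Mul.star hd2)) t).injective.comp ν₀.injective, Equiv.swap_apply_left _ _⟩
  rw [← hνt] at hx₀P
  have hnC : n < C₂ * 2 ^ (a * h) := by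
    rw [Nat.div_lt_iff_lt_mul hd0] at hup
    refine hup.trans_le (le_of_eq ?_)
    rw [pow_succ, ← pow_mul, hC₂]
    ring
  obtain ⟨Kl, hKl1, hKl, hKl2⟩ := exists_loss2 a b h c₀ Δ e₀ n (by omega) (by omega) hn1
  have hKl0 : 0 ≤ Kl := zero_le_one.trans hKl1
  have hKc := hKl2 (n * n) s m (by
    calc n * n = n ^ 2 := by ring
      _ ≤ n ^ e₀ := Nat.pow_le_pow_right hn1 (by omega)) hs hm
  have hr1 : 1 ≤ rcost (n * n) s m d Kl := one_le_rcost _ _ _ _ hKl0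
  have hn0 : (0:ℝ) ≤ ((n * n : ℕ) : ℝ) := Nat.cast_nonneg _
  have hs0 : (0:ℝ) ≤ s := Nat.cast_nonneg s
  have hcardn : (Fintype.card (Fin n × Fin n)) = n * n := by
    rw [Fintype.card_prod, Fintype.card_fin]
  have hϑ0 : (0:ℝ) < ((2:ℝ) ^ (a * h * w))⁻¹ := by positivity
  have hKc1 : 1 ≤ (((n * n : ℕ):ℝ) + s + 1) * rcost (n * n) s m d Kl ^ (Δ + 1) :=
    one_le_mul_of_one_le_of_one_le (by linarith) (one_le_pow₀ hr1)
  have hG : ∀ x ∈ Ω, AnalyticAt ℝ F x ∧ ∃ Q, PE (a + b) F x Q ∧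
      Good (bitFrame a b h) (T κ₁) ((((n * n : ℕ):ℝ) + s + 1) *
        rcost (n * n) s m d Kl ^ (Δ + 1) * ((2:ℝ) ^ (a * h * w))⁻¹)
        (jet (thet e ν (Sum.inr ⟨0, ha⟩) (fun _ => (0 : ℝ))) Q) := by
    intro x hx
    obtain ⟨h1, Q, hQ1, hQ2⟩ := P.good (T := T) (κ := 2 * Δ + 2) (h := h)
        (ϑ₀ := thet e ν (Sum.inr ⟨0, ha⟩) (fun _ => (0 : ℝ)))
        (K := Kl) (by omega) hKl0
        (fun p hp => hKl (Fin s) (by rw [Fintype.card_fin]; exact hs) p hp)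
        (fun j => thet_zero_empty j) (by omega) hTm hϑ0
        (fun j => by
          rw [hT0]
          exact thet_good hν _ hϑ0.le j) (fun k hk => hsc h k (by omega))
        (F := F) (x := x) (by
          filter_upwards [hΩ.mem_nhds hx] with z hz
          exact hF z hz)
    refine ⟨h1, Q, hQ1, ?_⟩
    rw [hcardn] at hQ2
    have h8 : (((n * n : ℕ):ℝ) + s + 1) * rcost (n * n) s m d Kl ^ (Δ + 1) *
          ((2:ℝ) ^ (a * h * w))⁻¹ = ((((n * n : ℕ):ℝ) + s + 1) *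
            (rcost (n * n) s m d Kl ^ (Δ + 1) * ((2:ℝ) ^ (a * h * w))⁻¹)) := by ring
    rw [h8]
    exact hQ2
  have hmain := core (L := w) (T := T) (κ₁ := κ₁) (Kc := (((n * n : ℕ):ℝ) + s + 1) *
      rcost (n * n) s m d Kl ^ (Δ + 1)) ha hd2 hKc1 hTK (hsc h κ₁ (by omega)) hν χ hχ1
    (fun u => hχd _ (sig_isCycle hν hd2 u) (sig_card hν hd2 u)) hΩ (F := F)
    (fun x hx => (hG x hx).1) (fun x hx => (hG x hx).2) hzero hx₀ hx₀H hx₀P hne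
  rw [← hd] at hmain
  have hRHS : (2:ℝ) ^ (a * h * w) ≤ C₁ * (n:ℝ) ^ (w - 1) := by
    refine hmain.trans ?_
    have h5 : (a:ℝ) + b = d := by rw [hd]; push_cast; ring
    rw [h5]
    have h3 : w - 1 = e₀ + 2 * e₀ * (Δ + 1) +
      (e₀ + (2 * e₀ + 2 * e₀ * (Δ + 1)) * (Δ + 1)) + 1 := by omega
    rw [h3]
    have h8 : (C₁ : ℝ) = (d:ℝ) * 2 ^ (d ^ 2) * (C₀ : ℕ) := by
      rw [hC₁]; push_cast; ring
    rw [h8, mul_assoc ((d:ℝ) * 2 ^ (d ^ 2))]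
    refine mul_le_mul_of_nonneg_left ?_ (by positivity)
    refine le_trans ?_ hKc
    exact le_mul_of_one_le_left (zero_le_one.trans hKc1) hKl1
  have hnR3 : (n:ℝ) < C₂ * (2:ℝ) ^ (a * h) := by exact_mod_cast hnC
  have hw0 : w ≠ 0 := by omega
  have hfin : (n:ℝ) ^ w < (C₂:ℝ) ^ w * C₁ * (n:ℝ) ^ (w - 1) := by
    calc (n:ℝ) ^ w < (C₂ * (2:ℝ) ^ (a * h)) ^ w :=
          pow_lt_pow_left₀ hnR3 (Nat.cast_nonneg n) hw0
      _ = (C₂:ℝ) ^ w * 2 ^ (a * h * w) := by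
          rw [mul_pow, ← pow_mul]
      _ ≤ (C₂:ℝ) ^ w * (C₁ * (n:ℝ) ^ (w - 1)) :=
          mul_le_mul_of_nonneg_left hRHS (by positivity)
      _ = _ := by ring
  have hfin2 : (n:ℝ) < (C₂:ℝ) ^ w * C₁ := by
    have h1 : (n:ℝ) ^ w = n * (n:ℝ) ^ (w - 1) := by
      rw [← pow_succ']; congr 1
    rw [h1] at hfin
    exact lt_of_mul_lt_mul_right hfin (by positivity)
  have hfin3 : n < C₂ ^ w * C₁ := by exact_mod_cast hfin2
  exact absurd hfin3 (not_lt.2 hna.le)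

end Pool.Agent.Y531.San
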