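import Pool.Agent.Y531.Mul.Full

/-!
# The rank of the top coefficient of the root at real points
-/

set_option autoImplicit false
set_option linter.unusedSectionVars false
set_option maxHeartbeats 1000000
set_option synthInstance.maxHeartbeats 200000

namespace Pool.Agent.Y531.San

open Finset Pool.Agent.W942 Pool.Agent.Y531 Pool.Agent.Y531.Mul

variable {a b h n : ℕ}

/-- **The determinant of the top coefficient of the root does not vanish at most points.** -/
theorem exists_det_ne_zero {F : Type} [Field F] {e : Fin (a + b) ≃ Fin b ⊕ Fin a}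
    {ν : Vtx h e → Fin n} {l₀ : Fin b ⊕ Fin a} (hν : Function.Injective ν) (hd : 2 ≤ a + b)
    (χ : Equiv.Perm (Fin n) → F) (hχ1 : χ 1 ≠ 0) (hχ : ∀ u, χ (sig e ν hν u) ≠ 0) :
    ∃ N : MvPolynomial (Fin n × Fin n) F, N ≠ 0 ∧ ∀ z : Fin n × Fin n → F,
      MvPolynomial.eval z (PP χ (ν (star hd))) ≠ 0 → MvPolynomial.eval z N ≠ 0 →
      ∀ ψ : SF (Fin b ⊕ Fin a) (FF a b h F),
        thR e ν l₀ (RingHom.id F) z (PP χ (ν (star hd))) * ψ =
          - thR e ν l₀ (RingHom.id F) z (RR χ (ν (star hd))) →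
        (Matrix.of fun u v => ψ Finset.univ u v).det ≠ 0 := by
  classical
  set s := ν (star hd) with hs
  set P : MvPolynomial (Fin n × Fin n) F := PP χ s with hP
  set Q : MvPolynomial (Fin n × Fin n) F := RR χ s with hQ
  have hev : (P).eval₂ (RingHom.id F) (one' F) = χ 1 := by
    rw [hP, eval_PP]; rfl
  have hP0 : P ≠ 0 := by
    intro h0
    rw [h0] at hev
    apply hχ1
    rw [← hev]
    exact MvPolynomial.eval₂_zero _ _
  set AP := Localization.Away P with hAP
  -- the specialisations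
  have hspec : ∀ z : Fin n × Fin n → F, MvPolynomial.eval z P ≠ 0 → ∃ δ : AP →+* F,
      ∀ x, δ (algebraMap (MvPolynomial (Fin n × Fin n) F) AP x) = MvPolynomial.eval z x := by
    intro z hz
    have hu : IsUnit (MvPolynomial.eval z P) := isUnit_iff_ne_zero.2 hz
    exact ⟨IsLocalization.Away.lift P hu, fun x => IsLocalization.Away.lift_eq P hu x⟩
  -- the root over `AP`
  set γA : F →+* AP := (algebraMap (MvPolynomial (Fin n × Fin n) F) AP).comp MvPolynomial.C with hγA
  set zA : Fin n × Fin n → AP := fun x => algebraMap (MvPolynomial (Fin n × Fin n) F) AP (MvPolynomial.X x) with hzA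
  have hevA : ∀ p : MvPolynomial (Fin n × Fin n) F, p.eval₂ γA zA = algebraMap (MvPolynomial (Fin n × Fin n) F) AP p := by
    intro p
    have h1 : MvPolynomial.eval₂Hom γA zA = algebraMap (MvPolynomial (Fin n × Fin n) F) AP := by
      refine MvPolynomial.ringHom_ext (fun r => ?_) (fun x => ?_)
      · rw [MvPolynomial.eval₂Hom_C]; rfl
      · rw [MvPolynomial.eval₂Hom_X']
    exact congrFun (congrArg DFunLike.coe h1) p
  have huA : IsUnit (thR e ν l₀ γA zA P) := by
    apply SF.isUnit_of_apply_empty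
    rw [thR_empty, hevA]
    exact (IsLocalization.Away.algebraMap_isUnit P).map _
  obtain ⟨w, hw⟩ := huA.exists_right_inv
  set ψA := -(thR e ν l₀ γA zA Q * w) with hψA
  have hγδ : ∀ (z : Fin n × Fin n → F) (δ : AP →+* F),
      (∀ x, δ (algebraMap (MvPolynomial (Fin n × Fin n) F) AP x) = MvPolynomial.eval z x) →
      δ.comp γA = RingHom.id F ∧ (fun x => δ (zA x)) = z := by
    intro z δ hδ
    constructor
    · refine RingHom.ext fun r => ?_
      show δ (algebraMap (MvPolynomial (Fin n × Fin n) F) AP (MvPolynomial.C r)) = _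
      rw [hδ, MvPolynomial.eval_C]; rfl
    · funext x
      show δ (algebraMap (MvPolynomial (Fin n × Fin n) F) AP (MvPolynomial.X x)) = _
      rw [hδ, MvPolynomial.eval_X]
  -- its image over `F`
  have hev' : MvPolynomial.eval (one' F) P ≠ 0 := by
    have h1 : MvPolynomial.eval (one' F) P = (P).eval₂ (RingHom.id F) (one' F) := rfl
    rw [h1, hev]
    exact hχ1
  obtain ⟨δ₂, hδ₂⟩ := hspec (one' F) hev'
  obtain ⟨hγ2, hz2⟩ := hγδ (one' F) δ₂ hδ₂
  have hdet2 : (Matrix.of fun u v => δ₂ (ψA Finset.univ u v)).det ≠ 0 := by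
    refine det_mt_ne_zero _ fun u v => ?_
    have h1 : SF.pe u v (SF.mapR (SF.push δ₂) ψA) = -((if v = mt u then
        SF.sgl Finset.univ (χ (sig e ν hν u)) else 0) * SF.pe u v (SF.mapR (SF.push δ₂) w)) := by
      have h2 := thR_RR (l₀ := l₀) (RingHom.id F) hν hd χ u v
      rw [hψA, map_neg, map_neg, map_mul, map_mul, thR_map, hγ2, hz2, hQ, hs, h2]
      rfl
    have h2 : Matrix.of (fun u v => δ₂ (ψA Finset.univ u v)) u v =
        SF.pe u v (SF.mapR (SF.push δ₂) ψA) Finset.univ := rfl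
    have h3 : SF.pe u v (SF.mapR (SF.push δ₂) w) ∅ = (χ 1)⁻¹ := by
      have h4 : SF.pe u v (thR e ν l₀ (RingHom.id F) (one' F) P) *
          SF.pe u v (SF.mapR (SF.push δ₂) w) = 1 := by
        rw [← map_mul, ← hγ2, ← hz2, ← thR_map, ← map_mul, hw, map_one, map_one]
      have h5 := congrArg (SF.ev0 (ι := Fin b ⊕ Fin a) (R := F)) h4
      rw [map_mul, map_one, SF.ev0_apply, SF.ev0_apply, SF.pe_apply, thR_empty, hev] at h5
      exact eq_inv_of_mul_eq_one_right h5
    rw [h2, h1, SF.neg_def, neg_eq_zero]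
    by_cases hv : v = mt u
    · rw [if_pos hv, SF.sgl_mul_apply, if_pos (Finset.Subset.refl _), Finset.sdiff_self, h3]
      exact iff_of_false (mul_ne_zero (hχ u) (inv_ne_zero hχ1)) (not_not.2 hv)
    · rw [if_neg hv, zero_mul]
      exact iff_of_true rfl hv
  -- the determinant over `AP`
  set M : Matrix (Ed a b h → Bool) (Ed a b h → Bool) AP := Matrix.of fun u v => ψA Finset.univ u v
    with hM
  have hM0 : M.det ≠ 0 := by
    intro h0
    apply hdet2
    have h1 : (Matrix.of fun u v => δ₂ (ψA Finset.univ u v)) = δ₂.mapMatrix M := by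
      ext u v; rfl
    rw [h1, ← RingHom.map_det, h0, map_zero]
  obtain ⟨⟨N, t⟩, hN⟩ := IsLocalization.surj (Submonoid.powers P) M.det
  obtain ⟨j, hj⟩ := t.2
  refine ⟨N, ?_, ?_⟩
  · rintro rfl
    apply hM0
    have h1 : IsUnit (algebraMap (MvPolynomial (Fin n × Fin n) F) AP (t : MvPolynomial (Fin n × Fin n) F)) :=
      IsLocalization.map_units AP t
    apply h1.mul_right_cancel
    rw [zero_mul]
    simpa using hN
  · intro z hz hNz ψ hψ
    obtain ⟨δ, hδ⟩ := hspec z hz
    obtain ⟨hγ, hzz⟩ := hγδ z δ hδ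
    have hψ1 : SF.mapR (SF.push δ) ψA = ψ := by
      have h1 : thR e ν l₀ (RingHom.id F) z P * SF.mapR (SF.push δ) w = 1 := by
        rw [← hγ, ← hzz, ← thR_map, ← map_mul, hw, map_one]
      have h2 : thR e ν l₀ (RingHom.id F) z Q = -(thR e ν l₀ (RingHom.id F) z P * ψ) := by
        rw [hψ, neg_neg]
      have h3 : SF.mapR (SF.push δ) (thR e ν l₀ γA zA Q) = thR e ν l₀ (RingHom.id F) z Q := by
        rw [thR_map, hγ, hzz]
      rw [hψA, map_neg, map_mul, h3, h2]
      calc -(-(thR e ν l₀ (RingHom.id F) z P * ψ) * SF.mapR (SF.push δ) w)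
          = (thR e ν l₀ (RingHom.id F) z P * SF.mapR (SF.push δ) w) * ψ := by ring
        _ = ψ := by rw [h1, one_mul]
    have h4 : (Matrix.of fun u v => ψ Finset.univ u v) = δ.mapMatrix M := by
      ext u v
      rw [← hψ1]
      rfl
    rw [h4, ← RingHom.map_det]
    intro h0
    have h5 := congrArg δ hN
    rw [map_mul, h0, zero_mul, hδ] at h5
    exact hNz h5.symm

end Pool.Agent.Y531.San
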