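import Pool.Agent.Y531.Hit.Root
import Pool.Agent.Y531.Sgen.Log

/-!
# The residue of the logarithmic derivative along a real line
-/

set_option autoImplicit false
set_option linter.unusedSectionVars false
set_option maxHeartbeats 1000000

namespace Pool.Agent.Y531.San

open Finset Filter Topology Pool.Agent.W942 Pool.Agent.Y531 Pool.Agent.Y531.Sgen

variable {ι : Type} [DecidableEq ι]

/-- The logarithmic derivative of `τ - ψ`. -/
theorem exists_poly (ψ : SF ι ℝ) (h0 : ψ ∅ = 0) (i : ι) (B : Finset ι) : i ∉ B →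
    ∃ q : Polynomial ℝ, q.natDegree ≤ B.card ∧ q.eval 0 = -ψ (insert i B) ∧
      ∀ (τ : ℝ) (Z : SF ι ℝ), τ ≠ 0 →
        SF.dd i (SF.cst τ - ψ) = Z * SF.sg i (SF.cst τ - ψ) → τ * Z B = q.eval τ⁻¹ := by
  induction B using Finset.strongInduction with
  | H B ih =>
    intro hi
    have h3 : ∀ C ∈ B.powerset.erase B, C ⊂ B ∧ i ∉ C := by
      intro C hC
      rw [Finset.mem_erase, Finset.mem_powerset] at hC
      exact ⟨Finset.ssubset_iff_subset_ne.2 ⟨hC.2, hC.1⟩, fun h => hi (hC.2 h)⟩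
    have h4 : ∀ C, C ∈ B.powerset.erase B → ∃ q : Polynomial ℝ, q.natDegree ≤ C.card ∧
        q.eval 0 = -ψ (insert i C) ∧ ∀ (τ : ℝ) (Z : SF ι ℝ), τ ≠ 0 →
        SF.dd i (SF.cst τ - ψ) = Z * SF.sg i (SF.cst τ - ψ) → τ * Z C = q.eval τ⁻¹ :=
      fun C hC => ih C (h3 C hC).1 (h3 C hC).2
    choose! q hq1 hq2 hq3 using h4
    refine ⟨Polynomial.C (-ψ (insert i B)) + ∑ C ∈ B.powerset.erase B,
      Polynomial.X * q C * Polynomial.C (ψ (B \ C)), ?_, ?_, ?_⟩
    · refine (Polynomial.natDegree_add_le _ _).trans (max_le ?_ ?_)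
      · rw [Polynomial.natDegree_C]; exact Nat.zero_le _
      · refine Polynomial.natDegree_sum_le_of_forall_le _ _ fun C hC => ?_
        have h5 := Finset.card_lt_card (h3 C hC).1
        refine (Polynomial.natDegree_mul_le).trans ?_
        rw [Polynomial.natDegree_C, add_zero]
        refine (Polynomial.natDegree_mul_le).trans ?_
        rw [Polynomial.natDegree_X]
        have := hq1 C hC
        omega
    · rw [Polynomial.eval_add, Polynomial.eval_C, Polynomial.eval_finsetSum]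
      simp
    · intro τ Z hτ hZ
      have h2 : SF.dd i (SF.cst τ - ψ) B = (Z * SF.sg i (SF.cst τ - ψ) : SF ι ℝ) B := by
        rw [hZ]
      rw [SF.dd_apply_of_notMem hi, SF.sub_def, SF.cst_apply, if_neg (Finset.insert_ne_empty _ _),
        SF.mul_def, ← Finset.add_sum_erase _ _ (Finset.mem_powerset_self B),
        Finset.sdiff_self, SF.sg_apply_of_notMem (Finset.notMem_empty i), SF.sub_def,
        SF.cst_apply, if_pos rfl, h0, sub_zero, zero_sub] at h2
      have h5 : ∑ C ∈ B.powerset.erase B, Z C * (SF.sg i (SF.cst τ - ψ)) (B \ C) =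
          -∑ C ∈ B.powerset.erase B, Z C * ψ (B \ C) := by
        rw [← Finset.sum_neg_distrib]
        refine Finset.sum_congr rfl fun C hC => ?_
        have hne : B \ C ≠ ∅ := by
          intro h
          rw [Finset.sdiff_eq_empty_iff_subset] at h
          exact (h3 C hC).1.2 h
        rw [SF.sg_apply_of_notMem (fun h => hi (Finset.mem_sdiff.1 h).1), SF.sub_def,
          SF.cst_apply, if_neg hne, zero_sub, mul_neg]
      rw [h5] at h2
      rw [Polynomial.eval_add, Polynomial.eval_C, Polynomial.eval_finsetSum]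
      have h6 : ∑ C ∈ B.powerset.erase B,
          Polynomial.eval τ⁻¹ (Polynomial.X * q C * Polynomial.C (ψ (B \ C))) =
          ∑ C ∈ B.powerset.erase B, Z C * ψ (B \ C) := by
        refine Finset.sum_congr rfl fun C hC => ?_
        rw [Polynomial.eval_mul, Polynomial.eval_mul, Polynomial.eval_X, Polynomial.eval_C,
          ← hq3 C hC τ Z hτ hZ, ← mul_assoc, inv_mul_cancel₀ hτ, one_mul]
      rw [h6]
      linear_combination -h2

/-- The logarithmic derivative of a convergent function. -/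
theorem exists_lim {l : Filter ℝ} (W E : ℝ → SF ι ℝ) {c : ℝ} (hc : c ≠ 0)
    (hW : ∀ S, ∃ z, Tendsto (fun τ => W τ S) l (𝓝 z)) (hW0 : Tendsto (fun τ => W τ ∅) l (𝓝 c))
    (i : ι) (hE : ∀ᶠ τ in l, SF.dd i (W τ) = E τ * SF.sg i (W τ)) (B : Finset ι) : i ∉ B →
    ∃ z, Tendsto (fun τ => E τ B) l (𝓝 z) := by
  induction B using Finset.strongInduction with
  | H B ih =>
    intro hi
    have h3 : ∀ C ∈ B.powerset.erase B, C ⊂ B ∧ i ∉ C := by
      intro C hC
      rw [Finset.mem_erase, Finset.mem_powerset] at hC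
      exact ⟨Finset.ssubset_iff_subset_ne.2 ⟨hC.2, hC.1⟩, fun h => hi (hC.2 h)⟩
    have h4 : ∀ C, C ∈ B.powerset.erase B → ∃ z, Tendsto (fun τ => E τ C) l (𝓝 z) :=
      fun C hC => ih C (h3 C hC).1 (h3 C hC).2
    choose! z hz using h4
    choose w hw using hW
    have h5 : ∀ᶠ τ in l, W τ ∅ ≠ 0 := hW0.eventually_ne hc
    refine ⟨(w (insert i B) - ∑ C ∈ B.powerset.erase B, z C * w (B \ C)) / c, ?_⟩
    have h6 : Tendsto (fun τ => (W τ (insert i B) - ∑ C ∈ B.powerset.erase B,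
        E τ C * W τ (B \ C)) / W τ ∅) l
        (𝓝 ((w (insert i B) - ∑ C ∈ B.powerset.erase B, z C * w (B \ C)) / c)) := by
      refine ((hw _).sub (tendsto_finsetSum _ fun C hC => (hz C hC).mul (hw _))).div hW0 hc
    refine h6.congr' ?_
    filter_upwards [h5, hE] with τ h7 h8
    have h2 : SF.dd i (W τ) B = (E τ * SF.sg i (W τ) : SF ι ℝ) B := by rw [h8]
    rw [SF.dd_apply_of_notMem hi, SF.mul_def,
      ← Finset.add_sum_erase _ _ (Finset.mem_powerset_self B), Finset.sdiff_self,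
      SF.sg_apply_of_notMem (Finset.notMem_empty i)] at h2
    have h9 : ∑ C ∈ B.powerset.erase B, E τ C * (SF.sg i (W τ)) (B \ C) =
        ∑ C ∈ B.powerset.erase B, E τ C * W τ (B \ C) := by
      refine Finset.sum_congr rfl fun C _ => ?_
      rw [SF.sg_apply_of_notMem (fun h => hi (Finset.mem_sdiff.1 h).1)]
    rw [h9] at h2
    rw [h2, div_eq_iff h7]
    ring

/-- The value at zero of a polynomial from other values. -/
theorem exists_weights (N : ℕ) : ∃ w : Fin (N + 1) → ℝ, ∀ q : Polynomial ℝ, q.natDegree ≤ N →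
    ∀ ε : ℝ, ∑ j, w j * q.eval (((j : ℕ) + 1 : ℝ) * ε) = q.eval 0 := by
  classical
  have hinj : Set.InjOn (fun j : Fin (N + 1) => ((j : ℕ) + 1 : ℝ))
      ((Finset.univ : Finset (Fin (N + 1))) : Set (Fin (N + 1))) := by
    intro x _ y _ hxy
    have h1 : ((x : ℕ) : ℝ) + 1 = (y : ℕ) + 1 := hxy
    have h2 : ((x : ℕ) : ℝ) = (y : ℕ) := by linarith
    exact Fin.ext (by exact_mod_cast h2)
  refine ⟨fun j => (Lagrange.basis Finset.univ (fun j : Fin (N + 1) => ((j : ℕ) + 1 : ℝ)) j).eval 0,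
    ?_⟩
  intro q hq ε
  set q' : Polynomial ℝ := q.comp (Polynomial.X * Polynomial.C ε) with hq'
  have hdeg : q'.degree < ((Finset.univ : Finset (Fin (N + 1))).card : WithBot ℕ) := by
    rw [Finset.card_univ, Fintype.card_fin]
    refine lt_of_le_of_lt Polynomial.degree_le_natDegree ?_
    have h1 : q'.natDegree ≤ N := by
      rw [hq']
      refine (Polynomial.natDegree_comp_le).trans ?_
      have h2 : (Polynomial.X * Polynomial.C ε).natDegree ≤ 1 :=
        (Polynomial.natDegree_mul_C_le _ _).trans Polynomial.natDegree_X_le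
      calc q.natDegree * (Polynomial.X * Polynomial.C ε).natDegree ≤ q.natDegree * 1 :=
            Nat.mul_le_mul_left _ h2
        _ ≤ N := by omega
    exact_mod_cast Nat.lt_succ_of_le h1
  have h1 := Lagrange.eq_interpolate hinj hdeg
  have h2 := congrArg (Polynomial.eval 0) h1
  rw [Lagrange.interpolate_apply, Polynomial.eval_finsetSum] at h2
  have h3 : q'.eval 0 = q.eval 0 := by
    rw [hq', Polynomial.eval_comp]
    simp
  rw [← h3, h2]
  refine Finset.sum_congr rfl fun j _ => ?_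
  rw [Polynomial.eval_mul, Polynomial.eval_C, hq', Polynomial.eval_comp]
  simp only [Polynomial.eval_mul, Polynomial.eval_X, Polynomial.eval_C]
  ring

variable [Fintype ι] {U : Type} [Fintype U] [DecidableEq U]

/-- **The residue.** -/
theorem res_det (ψ : SF ι (U → U → ℝ)) (hψ : ψ ∅ = 0) (i : ι) {k : ℕ} (hk : k ≠ 0)
    (P L W : ℝ → SF ι (U → U → ℝ)) {c : ℝ} (hc : c ≠ 0)
    (hW : ∀ S u v, ∃ z, Tendsto (fun τ => W τ S u v) (𝓝[≠] 0) (𝓝 z))
    (hW0 : ∀ u v, Tendsto (fun τ => W τ ∅ u v) (𝓝[≠] 0) (𝓝 c))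
    (hP : ∀ᶠ τ in 𝓝[≠] (0:ℝ), P τ = (SF.cst (fun _ _ => τ) - ψ) ^ k * W τ)
    (hL : ∀ᶠ τ in 𝓝[≠] (0:ℝ), SF.dd i (P τ) = L τ * SF.sg i (P τ))
    {B : Finset ι} (hB : i ∉ B) {r : ℕ} (hr : ∀ᶠ τ in 𝓝[≠] (0:ℝ), HasRk (L τ B) r)
    (hlt : (B.card + 1) * r < Fintype.card U) :
    (Matrix.of fun u v => ψ (insert i B) u v).det = 0 := by
  classical
  -- the logarithmic derivatives of the factors
  have hexW : ∀ τ, ∃ E : SF ι (U → U → ℝ), (∀ u v, W τ ∅ u v ≠ 0) →
      SF.dd i (W τ) = E * SF.sg i (W τ) := by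
    intro τ
    by_cases h : ∀ u v, W τ ∅ u v ≠ 0
    · obtain ⟨E, hE⟩ := exists_LD' i (W τ) (by
        rw [isUnit_iff_exists_inv]
        refine ⟨fun u v => (W τ ∅ u v)⁻¹, ?_⟩
        funext u v
        exact mul_inv_cancel₀ (h u v))
      exact ⟨E, fun _ => hE⟩
    · exact ⟨0, fun h' => absurd h' h⟩
  choose E hE using hexW
  have hexT : ∀ τ : ℝ, ∃ Z : SF ι (U → U → ℝ), τ ≠ 0 →
      SF.dd i (SF.cst (fun _ _ => τ) - ψ) = Z * SF.sg i (SF.cst (fun _ _ => τ) - ψ) := by
    intro τ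
    by_cases h : τ ≠ 0
    · obtain ⟨Z, hZ⟩ := exists_LD' i (SF.cst (fun _ _ => τ) - ψ) (by
        rw [SF.sub_def, SF.cst_apply, if_pos rfl, hψ, sub_zero, isUnit_iff_exists_inv]
        refine ⟨fun u v => τ⁻¹, ?_⟩
        funext u v
        exact mul_inv_cancel₀ h)
      exact ⟨Z, fun _ => hZ⟩
    · exact ⟨0, fun h' => absurd h' h⟩
  choose Z hZ using hexT
  have hne0 : ∀ᶠ τ in 𝓝[≠] (0:ℝ), τ ≠ 0 := eventually_mem_nhdsWithin
  have hWne : ∀ᶠ τ in 𝓝[≠] (0:ℝ), ∀ u v, W τ ∅ u v ≠ 0 := by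
    rw [eventually_all]
    intro u
    rw [eventually_all]
    intro v
    exact (hW0 u v).eventually_ne hc
  have hpe : ∀ (f g L' : SF ι (U → U → ℝ)) (u v : U), SF.dd i f = L' * SF.sg i g →
      SF.dd i (SF.pe u v f) = SF.pe u v L' * SF.sg i (SF.pe u v g) := by
    intro f g L' u v h
    have h1 := congrArg (SF.pe u v) h
    rw [SF.pe, SF.mapR_dd, map_mul, SF.mapR_sg] at h1
    exact h1
  -- the logarithmic derivative of the product
  have hsum : ∀ᶠ τ in 𝓝[≠] (0:ℝ), L τ = (k : SF ι (U → U → ℝ)) * Z τ + E τ := by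
    filter_upwards [hne0, hWne, hP, hL] with τ h1 h2 h3 h4
    have h5 := LD'_mul (LD'_pow (hZ τ h1) k) (hE τ h2)
    rw [← h3] at h5
    have hu : IsUnit (SF.sg i (P τ)) := by
      apply SF.isUnit_of_apply_empty
      rw [SF.sg_apply_of_notMem (Finset.notMem_empty i)]
      have h6 := map_mul (SF.ev0 (ι := ι) (R := U → U → ℝ))
        ((SF.cst (fun _ _ => τ) - ψ) ^ k) (W τ)
      rw [map_pow, SF.ev0_apply, SF.ev0_apply, SF.ev0_apply, SF.sub_def, SF.cst_apply, if_pos rfl,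
        hψ, sub_zero, ← h3] at h6
      rw [h6, isUnit_iff_exists_inv]
      refine ⟨fun u v => (τ ^ k * W τ ∅ u v)⁻¹, ?_⟩
      funext u v
      exact mul_inv_cancel₀ (mul_ne_zero (pow_ne_zero _ h1) (h2 u v))
    exact hu.mul_right_cancel (h4.symm.trans h5)
  -- the limits
  have hlimE : ∀ u v, ∃ z, Tendsto (fun τ => E τ B u v) (𝓝[≠] 0) (𝓝 z) := by
    intro u v
    have h1 := exists_lim (fun τ => SF.pe u v (W τ)) (fun τ => SF.pe u v (E τ)) hc
      (fun S => hW S u v) (hW0 u v) i (by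
        filter_upwards [hWne] with τ h1
        exact hpe _ _ _ u v (hE τ h1)) B hB
    exact h1
  choose q hq1 hq2 hq3 using fun u v => exists_poly (SF.pe u v ψ) (by
    rw [SF.pe_apply, hψ]; rfl) i B hB
  obtain ⟨w, hw⟩ := exists_weights B.card
  -- the combination
  set τs : Fin (B.card + 1) → ℝ → ℝ := fun j ε => ε / ((j : ℕ) + 1 : ℝ) with hτs
  have hjpos : ∀ j : Fin (B.card + 1), (0:ℝ) < (j : ℕ) + 1 := fun j => by positivity
  have hτl : ∀ j, Tendsto (τs j) (𝓝[≠] 0) (𝓝[≠] 0) := by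
    intro j
    refine tendsto_nhdsWithin_of_tendsto_nhds_of_eventually_within _ ?_ ?_
    · have h1 : Tendsto (fun ε : ℝ => ε / ((j : ℕ) + 1 : ℝ)) (𝓝 0) (𝓝 (0 / ((j : ℕ) + 1 : ℝ))) :=
        tendsto_id.div_const _
      rw [zero_div] at h1
      exact h1.mono_left nhdsWithin_le_nhds
    · filter_upwards [hne0] with ε hε
      exact div_ne_zero hε (hjpos j).ne'
  set N : ℝ → U → U → ℝ := fun ε u v => ∑ j, w j * (τs j ε * L (τs j ε) B u v) with hN
  have hNlim : ∀ u v, Tendsto (fun ε => N ε u v) (𝓝[≠] 0) (𝓝 (-(k * ψ (insert i B) u v))) := by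
    intro u v
    obtain ⟨z, hz⟩ := hlimE u v
    have h1 : Tendsto (fun ε => -(k * ψ (insert i B) u v) +
        ∑ j, w j * (τs j ε * E (τs j ε) B u v)) (𝓝[≠] 0) (𝓝 (-(k * ψ (insert i B) u v) +
          ∑ j : Fin (B.card + 1), w j * (0 * z))) := by
      refine tendsto_const_nhds.add (tendsto_finsetSum _ fun j _ => ?_)
      refine Tendsto.const_mul _ ?_
      exact ((hτl j).mono_right nhdsWithin_le_nhds).mul (hz.comp (hτl j))
    simp only [zero_mul, mul_zero, Finset.sum_const_zero, add_zero] at h1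
    refine h1.congr' ?_
    have h2 : ∀ᶠ ε in 𝓝[≠] (0:ℝ), ∀ j, τs j ε ≠ 0 ∧
        L (τs j ε) = (k : SF ι (U → U → ℝ)) * Z (τs j ε) + E (τs j ε) := by
      rw [eventually_all]
      intro j
      exact (hτl j).eventually (hne0.and hsum)
    filter_upwards [h2, hne0] with ε h3 h4
    rw [hN]
    simp only
    have h5 : ∀ j, τs j ε * L (τs j ε) B u v =
        k * (q u v).eval (((j : ℕ) + 1 : ℝ) * ε⁻¹) + τs j ε * E (τs j ε) B u v := by
      intro j
      have h6 : L (τs j ε) B u v = k * Z (τs j ε) B u v + E (τs j ε) B u v := by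
        rw [(h3 j).2, SF.add_def]
        have h7 : (k : SF ι (U → U → ℝ)) = SF.cst (k : U → U → ℝ) := by rw [map_natCast]
        rw [h7, SF.cst_mul_apply]
        rfl
      have h7 := hq3 u v (τs j ε) (SF.pe u v (Z (τs j ε))) (h3 j).1 (by
        have h8 := hpe _ _ _ u v (hZ (τs j ε) (h3 j).1)
        rw [map_sub, SF.pe_cst] at h8
        exact h8)
      rw [SF.pe_apply] at h7
      have h8 : (τs j ε)⁻¹ = ((j : ℕ) + 1 : ℝ) * ε⁻¹ := by
        rw [hτs]
        simp only
        rw [inv_div, div_eq_mul_inv]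
      rw [← h8, h6, mul_add, ← h7]
      ring
    simp only [h5, mul_add, Finset.sum_add_distrib]
    congr 1
    have h6 := hw (q u v) (hq1 u v) ε⁻¹
    rw [hq2, SF.pe_apply] at h6
    have h7 : ∑ j : Fin (B.card + 1), w j * ((k:ℝ) * (q u v).eval (((j : ℕ) + 1 : ℝ) * ε⁻¹)) =
        k * ∑ j : Fin (B.card + 1), w j * (q u v).eval (((j : ℕ) + 1 : ℝ) * ε⁻¹) := by
      rw [Finset.mul_sum]
      exact Finset.sum_congr rfl fun j _ => by ring
    rw [h7, h6]
    ring
  have hdet0 : ∀ᶠ ε in 𝓝[≠] (0:ℝ), (Matrix.of (N ε)).det = 0 := by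
    have h2 : ∀ᶠ ε in 𝓝[≠] (0:ℝ), ∀ j, HasRk (L (τs j ε) B) r := by
      rw [eventually_all]
      intro j
      exact (hτl j).eventually hr
    filter_upwards [h2] with ε h3
    have h4 : HasRk (N ε) (∑ _j : Fin (B.card + 1), 1 * r) := by
      refine (HasRk.sum Finset.univ (M := fun j u v => (w j * τs j ε) * L (τs j ε) B u v)
        (r := fun _ => 1 * r) fun j _ => ?_).congr fun u v => ?_
      · exact (HasRk.one_of_mul (M := fun (_ : U) (_ : U) => w j * τs j ε)
          (fun _ => w j * τs j ε) (fun _ => 1) (fun _ _ => by rw [mul_one])).mul (h3 j)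
      · rw [hN]
        exact Finset.sum_congr rfl fun j _ => by ring
    rw [Finset.sum_const, Finset.card_univ, Fintype.card_fin, one_mul, smul_eq_mul] at h4
    by_contra hne
    have h5 := (hasRk_iff _ _).1 h4
    have h6 : (Matrix.of (N ε)).rank = Fintype.card U :=
      Matrix.rank_of_isUnit _ ((Matrix.isUnit_iff_isUnit_det _).2 (isUnit_iff_ne_zero.2 hne))
    omega
  have hdetlim : Tendsto (fun ε => (Matrix.of (N ε)).det) (𝓝[≠] 0)
      (𝓝 (Matrix.of fun u v => -(k * ψ (insert i B) u v)).det) := by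
    have h1 : Continuous fun M : Matrix U U ℝ => M.det := Continuous.matrix_det continuous_id
    have h2 : Tendsto (fun ε => (N ε : U → U → ℝ)) (𝓝[≠] 0)
        (𝓝 (fun u v => -(k * ψ (insert i B) u v))) :=
      tendsto_pi_nhds.2 fun u => tendsto_pi_nhds.2 fun v => hNlim u v
    exact (h1.tendsto _).comp h2
  have h8 : (Matrix.of fun u v => -(k * ψ (insert i B) u v)).det = 0 :=
    tendsto_nhds_unique (hdetlim.congr' hdet0) tendsto_const_nhds
  have h9 : (Matrix.of fun u v => -(k * ψ (insert i B) u v)) =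
      (-(k:ℝ)) • (Matrix.of fun u v => ψ (insert i B) u v) := by
    ext u v
    rw [Matrix.smul_apply, Matrix.of_apply, Matrix.of_apply, smul_eq_mul, neg_mul]
  rw [h9, Matrix.det_smul, mul_eq_zero] at h8
  rcases h8 with h8 | h8
  · exact absurd h8 (pow_ne_zero _ (neg_ne_zero.2 (Nat.cast_ne_zero.2 hk)))
  · exact h8

end Pool.Agent.Y531.San
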