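import Pool.Agent.Y531.San.Net
import Pool.Agent.Y531.San.Res
import Pool.Agent.Y531.San.Psi
import Pool.Agent.Y531.Snet.Mult

/-!
# Analytic functions which vanish along a matrix function
-/

set_option autoImplicit false
set_option linter.unusedSectionVars false
set_option maxHeartbeats 2000000
set_option synthInstance.maxHeartbeats 200000

namespace Pool.Agent.Y531.San

open MvPolynomial Topology Filter Pool.Agent.W942 Pool.Agent.Y531 Pool.Agent.Y531.Mul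
  Pool.Agent.Y531.Hit Pool.Agent.Y531.Hlim Pool.Agent.Y531.Sgen MeasureTheory
open Pool.Agent.Y531.Smooth (PE)
open Pool.Agent.Y531.Snet (leafAt_thet thet_zero_empty ld_rank)

variable {n : ℕ}

section shift
variable (χ : Equiv.Perm (Fin n) → ℝ) (s : Fin n)

/-- The unit vector. -/
noncomputable def e0 (s : Fin n) : Fin n × Fin n → ℝ := Pi.single (s, s) 1

theorem e0_self : e0 s (s, s) = 1 := by rw [e0, Pi.single_eq_same]

theorem e0_of_ne {x : Fin n × Fin n} (hx : x ≠ (s, s)) : e0 s x = 0 := by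
  rw [e0, Pi.single_eq_of_ne hx]

theorem eval_shift (z : Fin n × Fin n → ℝ) (t : ℝ) :
    eval (z + t • e0 s) (PP χ s) = eval z (PP χ s) ∧
    eval (z + t • e0 s) (RR χ s) = eval z (RR χ s) := by
  refine PP_congr χ s (eval (z + t • e0 s)) (eval z) (fun c => by rw [eval_C, eval_C])
    fun x hx => ?_
  rw [eval_X, eval_X, Pi.add_apply, Pi.smul_apply, e0_of_ne s hx, smul_zero, add_zero]

/-- The zero of the matrix function in the entry `(s, s)`. -/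
noncomputable def hh (z : Fin n × Fin n → ℝ) : ℝ := -(eval z (RR χ s)) / eval z (PP χ s)

theorem hh_shift (z : Fin n × Fin n → ℝ) (t : ℝ) : hh χ s (z + t • e0 s) = hh χ s z := by
  rw [hh, hh, (eval_shift χ s z t).1, (eval_shift χ s z t).2]

theorem eval_FX (z : Fin n × Fin n → ℝ) :
    eval z (FX χ) = z (s, s) * eval z (PP χ s) + eval z (RR χ s) := by
  rw [FX_eq χ s, map_add, map_mul, eval_X]

theorem eval_FX' (z : Fin n × Fin n → ℝ) (hz : eval z (PP χ s) ≠ 0) :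
    eval z (FX χ) = (z (s, s) - hh χ s z) * eval z (PP χ s) := by
  rw [eval_FX χ s, hh]
  field_simp
  ring

/-- Onto the zero set. -/
noncomputable def sh (z : Fin n × Fin n → ℝ) : Fin n × Fin n → ℝ := z + hh χ s z • e0 s

/-- Back. -/
noncomputable def un (z : Fin n × Fin n → ℝ) : Fin n × Fin n → ℝ := z + (-hh χ s z) • e0 s

theorem sh_un (z : Fin n × Fin n → ℝ) : sh χ s (un χ s z) = z := by
  rw [sh, un, hh_shift, add_assoc, ← add_smul, neg_add_cancel, zero_smul, add_zero]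

theorem un_sh (z : Fin n × Fin n → ℝ) : un χ s (sh χ s z) = z := by
  rw [sh, un, hh_shift, add_assoc, ← add_smul, add_neg_cancel, zero_smul, add_zero]

theorem un_self (z : Fin n × Fin n → ℝ) : un χ s z (s, s) = z (s, s) - hh χ s z := by
  rw [un, Pi.add_apply, Pi.smul_apply, e0_self, smul_eq_mul, mul_one, sub_eq_add_neg]

theorem sh_self (z : Fin n × Fin n → ℝ) : sh χ s z (s, s) = z (s, s) + hh χ s z := by
  rw [sh, Pi.add_apply, Pi.smul_apply, e0_self, smul_eq_mul, mul_one]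

theorem analyticAt_hh {z : Fin n × Fin n → ℝ} (hz : eval z (PP χ s) ≠ 0) :
    AnalyticAt ℝ (hh χ s) z := by
  have h1 : ∀ p : MvPolynomial (Fin n × Fin n) ℝ, AnalyticAt ℝ (fun z => eval z p) z := fun p =>
    AnalyticOnNhd.eval_mvPolynomial p z (Set.mem_univ z)
  exact ((h1 (RR χ s)).neg).div (h1 (PP χ s)) hz

theorem analyticAt_sh {z : Fin n × Fin n → ℝ} (hz : eval z (PP χ s) ≠ 0) :
    AnalyticAt ℝ (sh χ s) z :=
  analyticAt_id.add ((analyticAt_hh χ s hz).smul analyticAt_const)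

theorem analyticAt_un {z : Fin n × Fin n → ℝ} (hz : eval z (PP χ s) ≠ 0) :
    AnalyticAt ℝ (un χ s) z :=
  analyticAt_id.add (((analyticAt_hh χ s hz).neg).smul analyticAt_const)

theorem scal_shift (z : Fin n × Fin n → ℝ) : scal (s, s) 0 z = z + (-(z (s, s))) • e0 s := by
  rw [scal_apply, e0]
  congr 2
  ring

theorem isOpen_PP : IsOpen {z : Fin n × Fin n → ℝ | eval z (PP χ s) ≠ 0} :=
  isOpen_ne_fun (MvPolynomial.continuous_eval _) continuous_const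

end shift

/-- **The factorisation near the zero set.** -/
theorem exists_factor (χ : Equiv.Perm (Fin n) → ℝ) (s : Fin n)
    {Ω : Set (Fin n × Fin n → ℝ)} (hΩ : IsOpen Ω) {F : (Fin n × Fin n → ℝ) → ℝ}
    (hana : ∀ x ∈ Ω, AnalyticAt ℝ F x) (hzero : ∀ x ∈ Ω, eval x (FX χ) = 0 → F x = 0)
    {x₀ : Fin n × Fin n → ℝ} (hx₀ : x₀ ∈ Ω) (hx₀H : eval x₀ (FX χ) = 0)
    (hx₀P : eval x₀ (PP χ s) ≠ 0) (hne : ¬ F =ᶠ[𝓝 x₀] 0)
    {N : MvPolynomial (Fin n × Fin n) ℝ} (hN : N ≠ 0) :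
    ∃ (k : ℕ) (W : (Fin n × Fin n → ℝ) → ℝ) (z₁ : Fin n × Fin n → ℝ), k ≠ 0 ∧
      (∀ m : ℕ, ContDiff ℝ m W) ∧ eval z₁ N ≠ 0 ∧ eval z₁ (PP χ s) ≠ 0 ∧
      sh χ s (scal (s, s) 0 z₁) ∈ Ω ∧ W (sh χ s (scal (s, s) 0 z₁)) ≠ 0 ∧
      ∀ᶠ z in 𝓝 (sh χ s (scal (s, s) 0 z₁)),
        eval z (PP χ s) ^ k * F z = eval z (FX χ) ^ k * W z := by
  classical
  have hne' : Nonempty (Fin n × Fin n) := ⟨(s, s)⟩
  -- the base point
  have hx₀h : x₀ (s, s) = hh χ s x₀ := by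
    have h1 := eval_FX' χ s x₀ hx₀P
    rw [hx₀H] at h1
    have h2 := (mul_eq_zero.1 h1.symm).resolve_right hx₀P
    linarith
  set y₀ := un χ s x₀ with hy₀
  have hy₀s : y₀ (s, s) = 0 := by rw [hy₀, un_self, hx₀h, sub_self]
  have hshy₀ : sh χ s y₀ = x₀ := sh_un χ s x₀
  have hy₀P : eval y₀ (PP χ s) ≠ 0 := by
    rw [hy₀, un, (eval_shift χ s x₀ _).1]
    exact hx₀P
  have hA0 : scal (s, s) 0 y₀ = y₀ := scal_zero_apply _ _ hy₀s 0
  have hA0t : Tendsto (fun z => scal (s, s) 0 z) (𝓝 y₀) (𝓝 y₀) := by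
    have h1 := (scal (σ := Fin n × Fin n) (s, s) 0).continuous.tendsto y₀
    rw [hA0] at h1
    exact h1
  -- the function in the new coordinates
  set G : (Fin n × Fin n → ℝ) → ℝ := fun z => F (sh χ s z) with hG
  have hsht : Tendsto (sh χ s) (𝓝 y₀) (𝓝 x₀) := by
    have h1 := (analyticAt_sh χ s hy₀P).continuousAt.tendsto
    rw [hshy₀] at h1
    exact h1
  have hGa : AnalyticAt ℝ G y₀ := by
    have h1 : AnalyticAt ℝ F (sh χ s y₀) := by rw [hshy₀]; exact hana x₀ hx₀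
    exact AnalyticAt.fun_comp (g := F) (f := sh χ s) h1 (analyticAt_sh χ s hy₀P)
  obtain ⟨D, hD, hDo, hDy⟩ := eventually_nhds_iff.1 hGa.eventually_analyticAt
  obtain ⟨G', hG', hGG⟩ := exists_global hDo (f := G)
    (fun m => fun z hz => ((hD z hz).contDiffAt).contDiffWithinAt) hDy
  set q : ℕ → (Fin n × Fin n → ℝ) → ℝ := quos (s, s) G' with hq
  have hqs : ∀ k m : ℕ, ContDiff ℝ m (q k) := fun k m => contDiff_quos (s, s) hG' k m
  have hexp : ∀ (k : ℕ) (z : Fin n × Fin n → ℝ), (∀ i < k, q i (scal (s, s) 0 z) = 0) →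
      G' z = z (s, s) ^ k * q k z := fun k z hz => eq_quos (s, s) hG' k z hz
  -- the order
  have hex : ∃ k, ¬ ∀ᶠ z in 𝓝 y₀, q k (scal (s, s) 0 z) = 0 := by
    by_contra hall
    push Not at hall
    have hall' : ∀ k, ∀ᶠ z in 𝓝 y₀, q k (scal (s, s) 0 z) = 0 := fun k => by
      have := hall k
      simpa [Filter.not_frequently] using this
    apply hne
    have hadd : Tendsto (fun y : Fin n × Fin n → ℝ => y₀ + y) (𝓝 0) (𝓝 y₀) := by
      have h6 : Continuous fun y : Fin n × Fin n → ℝ => y₀ + y :=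
        continuous_const.add continuous_id
      have h7 := h6.tendsto 0
      simp only [add_zero] at h7
      exact h7
    have hG'a : AnalyticAt ℝ G' y₀ := hGa.congr hGG.symm
    have h1 : G' =ᶠ[𝓝 y₀] 0 := by
      refine flat_zero hG'a fun k => ?_
      have h2 : ∀ᶠ z in 𝓝 y₀, ∀ i < k, q i (scal (s, s) 0 z) = 0 := by
        have h3 : ∀ᶠ z in 𝓝 y₀, ∀ i ∈ Finset.range k, q i (scal (s, s) 0 z) = 0 := by
          rw [Filter.eventually_all_finset]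
          exact fun i _ => hall' i
        filter_upwards [h3] with z hz i hi
        exact hz i (Finset.mem_range.2 hi)
      have h3 : (fun y : Fin n × Fin n → ℝ => G' (y₀ + y)) =ᶠ[𝓝 0]
          fun y => (y (s, s)) ^ k * q k (y₀ + y) := by
        filter_upwards [hadd.eventually h2] with y hy
        rw [hexp k _ hy, Pi.add_apply, hy₀s, zero_add]
      refine h3.trans_isBigO ?_
      have h4 : (fun y : Fin n × Fin n → ℝ => y (s, s) ^ k) =O[𝓝 0] fun y => ‖y‖ ^ k := by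
        refine Asymptotics.IsBigO.of_bound 1 (Eventually.of_forall fun y => ?_)
        rw [norm_pow, norm_pow, norm_norm, one_mul]
        exact pow_le_pow_left₀ (norm_nonneg _) (norm_le_pi_norm y (s, s)) k
      have h5 : (fun y : Fin n × Fin n → ℝ => q k (y₀ + y)) =O[𝓝 0] fun _ => (1:ℝ) := by
        have h6 : Tendsto (fun y : Fin n × Fin n → ℝ => q k (y₀ + y)) (𝓝 0) (𝓝 (q k y₀)) :=
          ((hqs k 0).continuous.tendsto y₀).comp hadd
        exact h6.isBigO_one ℝ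
      refine (h4.mul h5).congr_right fun y => ?_
      rw [mul_one]
    have h2 : G =ᶠ[𝓝 y₀] 0 := hGG.symm.trans h1
    have h3 : Tendsto (un χ s) (𝓝 x₀) (𝓝 y₀) := (analyticAt_un χ s hx₀P).continuousAt.tendsto
    filter_upwards [h3.eventually h2] with z hz
    have h4 : F (sh χ s (un χ s z)) = 0 := hz
    rw [sh_un] at h4
    exact h4
  set k := Nat.find hex with hk
  have hkn : ¬ ∀ᶠ z in 𝓝 y₀, q k (scal (s, s) 0 z) = 0 := Nat.find_spec hex
  have hkm : ∀ i < k, ∀ᶠ z in 𝓝 y₀, q i (scal (s, s) 0 z) = 0 := fun i hi =>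
    not_not.1 (Nat.find_min hex hi)
  have hΩev : ∀ᶠ z in 𝓝 y₀, sh χ s z ∈ Ω := hsht.eventually (hΩ.mem_nhds hx₀)
  have hPev : ∀ᶠ z in 𝓝 y₀, eval z (PP χ s) ≠ 0 := (isOpen_PP χ s).mem_nhds hy₀P
  have hk0 : k ≠ 0 := by
    intro h0
    apply hkn
    rw [h0]
    have h1 : ∀ᶠ z in 𝓝 y₀, G' z = G z := hGG
    filter_upwards [hA0t.eventually (h1.and (hΩev.and hPev))] with z hz
    obtain ⟨h2, h3, h4⟩ := hz
    show G' (scal (s, s) 0 z) = 0
    rw [h2]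
    refine hzero _ h3 ?_
    have h5 : eval (sh χ s (scal (s, s) 0 z)) (PP χ s) ≠ 0 := by
      rw [sh, (eval_shift χ s _ _).1]; exact h4
    rw [eval_FX' χ s _ h5, sh_self, scal_self, zero_mul, zero_add, sh, hh_shift, sub_self,
      zero_mul]
  -- a good point
  have hall : ∀ᶠ z in 𝓝 y₀, (∀ᶠ z' in 𝓝 z, G' z' = G z') ∧
      (∀ᶠ z' in 𝓝 z, ∀ i < k, q i (scal (s, s) 0 z') = 0) ∧ sh χ s z ∈ Ω ∧
      eval z (PP χ s) ≠ 0 := by
    have h3 : ∀ᶠ z in 𝓝 y₀, ∀ i < k, q i (scal (s, s) 0 z) = 0 := by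
      have h3 : ∀ᶠ z in 𝓝 y₀, ∀ i ∈ Finset.range k, q i (scal (s, s) 0 z) = 0 := by
        rw [Filter.eventually_all_finset]
        exact fun i hi => hkm i (Finset.mem_range.1 hi)
      filter_upwards [h3] with z hz i hi
      exact hz i (Finset.mem_range.2 hi)
    exact (eventually_eventually_nhds.2 hGG).and ((eventually_eventually_nhds.2 h3).and
      (hΩev.and hPev))
  obtain ⟨V, hV, hVo, hVy⟩ := eventually_nhds_iff.1 (hA0t.eventually hall)
  have hfr : ∃ z ∈ V, q k (scal (s, s) 0 z) ≠ 0 := by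
    by_contra hcon
    push Not at hcon
    exact hkn (eventually_nhds_iff.2 ⟨V, hcon, hVo, hVy⟩)
  obtain ⟨z₀, hz₀V, hz₀q⟩ := hfr
  set V' := V ∩ {z | q k (scal (s, s) 0 z) ≠ 0} with hV'
  have hV'o : IsOpen V' := hVo.inter (isOpen_ne_fun
    ((hqs k 0).continuous.comp (scal (s, s) 0).continuous) continuous_const)
  obtain ⟨z₁, hz₁V', hz₁N⟩ : ∃ z ∈ V', eval z N ≠ 0 := by
    by_contra hcon
    push Not at hcon
    have h1 : volume V' ≠ 0 := (hV'o.measure_pos volume ⟨z₀, hz₀V, hz₀q⟩).ne'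
    apply h1
    have h2 := Smooth.ae_eval_ne_zero hN
    refine measure_mono_null (t := {z | ¬ eval z N ≠ 0}) (fun z hz => ?_) h2
    exact not_not.2 (hcon z hz)
  obtain ⟨hz₁V, hz₁q⟩ := hz₁V'
  obtain ⟨h1, h2, h3, h4⟩ := hV z₁ hz₁V
  set y₁ := scal (s, s) 0 z₁ with hy₁
  set p₁ := sh χ s y₁ with hp₁
  have hz₁P : eval z₁ (PP χ s) ≠ 0 := by
    have h5 : eval y₁ (PP χ s) = eval z₁ (PP χ s) := by
      rw [hy₁, scal_shift, (eval_shift χ s _ _).1]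
    rw [← h5]
    exact h4
  have hp₁P : eval p₁ (PP χ s) ≠ 0 := by
    rw [hp₁, sh, (eval_shift χ s _ _).1]; exact h4
  have hunp : un χ s p₁ = y₁ := un_sh χ s y₁
  obtain ⟨W, hW, hWW⟩ := exists_global (isOpen_PP χ s) (f := fun z => q k (un χ s z))
    (fun m => fun z hz => by
      have h5 : ContDiffAt ℝ m (un χ s) z := (analyticAt_un χ s hz).contDiffAt
      exact ((hqs k m).contDiffAt.comp z h5).contDiffWithinAt) (x := p₁) hp₁P
  refine ⟨k, W, z₁, hk0, hW, hz₁N, hz₁P, h3, ?_, ?_⟩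
  · have h5 := hWW.self_of_nhds
    rw [h5]
    simp only
    rw [hunp]
    exact hz₁q
  · have hunt : Tendsto (un χ s) (𝓝 p₁) (𝓝 y₁) := by
      have h5 := (analyticAt_un χ s hp₁P).continuousAt.tendsto
      rw [hunp] at h5
      exact h5
    filter_upwards [hunt.eventually (h1.and h2), hWW, (isOpen_PP χ s).mem_nhds hp₁P]
      with z h5 h6 h7
    have h8 : F z = G (un χ s z) := by
      show F z = F (sh χ s (un χ s z))
      rw [sh_un]
    rw [h8, ← h5.1, hexp k _ h5.2, un_self, eval_FX' χ s z h7, h6]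
    rw [mul_pow]
    ring

/-- The jets, evaluated. -/
noncomputable def jetAt {a b h : ℕ} {σ : Type} (ϑ₀ : σ → SF (Fin b ⊕ Fin a) (FF a b h ℝ))
    (S : Finset (Fin b ⊕ Fin a)) (u v : Ed a b h → Bool) : MvPolynomial σ ℝ →ₗ[ℝ] ℝ where
  toFun P := jet ϑ₀ P S u v
  map_add' P Q := by rw [map_add]; rfl
  map_smul' c P := by
    rw [MvPolynomial.smul_eq_C_mul, map_mul, jet_C, SF.cst_mul_apply]
    rfl

/-- **The rank inequality for an analytic function which vanishes along a matrix function.** -/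
theorem core {a b h κ₁ L : ℕ} {T : ℕ → ℕ} {Kc : ℝ} (ha : 0 < a) (hd : 2 ≤ a + b) (hKc : 1 ≤ Kc)
    (hTK : T (κ₁ + 1) ≤ a + b)
    (hscale : ∃ z : ℝ, 0 ≤ z ∧ z ≤ 1 ∧ NumScale a b h (T κ₁) z ∧
      z ^ (T (κ₁ + 1)) ≤ ((2:ℝ) ^ (a * h * L))⁻¹)
    {e : Fin (a + b) ≃ Fin b ⊕ Fin a} {ν : Vtx h e → Fin n} (hν : Function.Injective ν)
    (χ : Equiv.Perm (Fin n) → ℝ) (hχ1 : χ 1 ≠ 0) (hχ : ∀ u, χ (sig e ν hν u) ≠ 0)
    {Ω : Set (Fin n × Fin n → ℝ)} (hΩ : IsOpen Ω) {F : (Fin n × Fin n → ℝ) → ℝ}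
    (hana : ∀ x ∈ Ω, AnalyticAt ℝ F x)
    (hgood : ∀ x ∈ Ω, ∃ Q, PE (a + b) F x Q ∧
      Good (bitFrame a b h) (T κ₁) (Kc * ((2:ℝ) ^ (a * h * L))⁻¹)
        (jet (thet e ν (Sum.inr ⟨0, ha⟩) (fun _ => (0 : ℝ))) Q))
    (hzero : ∀ x ∈ Ω, eval x (FX χ) = 0 → F x = 0)
    {x₀ : Fin n × Fin n → ℝ} (hx₀ : x₀ ∈ Ω) (hx₀H : eval x₀ (FX χ) = 0)
    (hx₀P : eval x₀ (PP χ (ν (star hd))) ≠ 0) (hne : ¬ F =ᶠ[𝓝 x₀] 0) :
    (2:ℝ) ^ (a * h * L) ≤ ((a:ℝ) + b) * 2 ^ ((a + b) ^ 2) * Kc := by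
  classical
  have hcard : Fintype.card (Fin b ⊕ Fin a) = a + b := by
    rw [Fintype.card_sum, Fintype.card_fin, Fintype.card_fin, add_comm]
  let i₀ : Fin b ⊕ Fin a := Sum.inr ⟨0, ha⟩
  set s := ν (star hd) with hs
  set ϑ : ℝ := ((2:ℝ) ^ (a * h * L))⁻¹ with hϑ
  have hϑ0 : 0 < ϑ := by positivity
  set ϑ₀ : Fin n × Fin n → SF (Fin b ⊕ Fin a) (FF a b h ℝ) :=
    thet e ν i₀ (fun _ => (0 : ℝ)) with hϑ₀
  have h0 : ∀ j, ϑ₀ j ∅ = 0 := fun j => thet_zero_empty j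
  set B : Finset (Fin b ⊕ Fin a) := Finset.univ.erase i₀ with hB
  have hBi : i₀ ∉ B := Finset.notMem_erase _ _
  have hBins : insert i₀ B = Finset.univ := Finset.insert_erase (Finset.mem_univ _)
  have hBc : B.card + 1 = a + b := by
    rw [hB, Finset.card_erase_of_mem (Finset.mem_univ _), Finset.card_univ, hcard]
    omega
  set ρ : ℝ := 2 ^ ((a + b) ^ 2) * (Kc * ϑ) * 2 ^ (b * (a * h)) with hρ
  have hρ0 : 0 ≤ ρ := by
    have : 0 ≤ Kc := zero_le_one.trans hKc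
    positivity
  obtain ⟨N, hN, hNdet⟩ := exists_det_ne_zero (l₀ := i₀) hν hd χ hχ1 hχ
  obtain ⟨k, W, z₁, hk, hW, hz₁N, hz₁P, hpΩ, hpW, hfac⟩ :=
    exists_factor χ s hΩ hana hzero hx₀ hx₀H hx₀P hne hN
  set y₁ := scal (s, s) 0 z₁ with hy₁
  set p₁ := sh χ s y₁ with hp₁
  -- the root
  set A := thR e ν i₀ (RingHom.id ℝ) z₁ (PP χ s) with hA
  have hAu : IsUnit A := by
    apply SF.isUnit_of_apply_empty
    rw [hA, thR_empty]
    exact (isUnit_iff_ne_zero.2 hz₁P).map _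
  obtain ⟨w, hw⟩ := hAu.exists_right_inv
  obtain ⟨ψ', hψ'1⟩ : ∃ ψ', A * ψ' = -thR e ν i₀ (RingHom.id ℝ) z₁ (RR χ s) :=
    ⟨-(thR e ν i₀ (RingHom.id ℝ) z₁ (RR χ s) * w), by
      rw [mul_neg, mul_left_comm, hw, mul_one]⟩
  set ψ := ψ' - SF.cst (algebraMap ℝ (FF a b h ℝ) (hh χ s z₁)) with hψ
  have hψ0 : ψ ∅ = 0 := by
    have h1 := congrArg (SF.ev0 (ι := Fin b ⊕ Fin a) (R := FF a b h ℝ)) hψ'1
    rw [map_mul, map_neg, SF.ev0_apply, SF.ev0_apply, SF.ev0_apply, hA, thR_empty, thR_empty] at h1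
    rw [hψ, SF.sub_def, SF.cst_apply, if_pos rfl]
    funext u v
    have h2 : eval z₁ (PP χ s) * ψ' ∅ u v = -eval z₁ (RR χ s) := congrFun (congrFun h1 u) v
    show ψ' ∅ u v - hh χ s z₁ = 0
    rw [hh, ← h2]
    field_simp
    ring
  have hψu : ψ Finset.univ = ψ' Finset.univ := by
    rw [hψ, SF.sub_def, SF.cst_apply, if_neg (Finset.ne_empty_of_mem (Finset.mem_univ i₀)),
      sub_zero]
  have hdet := hNdet z₁ hz₁P hz₁N ψ' hψ'1
  -- the line
  set xt : ℝ → Fin n × Fin n → ℝ := fun τ => p₁ + τ • e0 s with hxt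
  have hxtz : ∀ τ, ∃ t : ℝ, xt τ = z₁ + t • e0 s := fun τ => by
    refine ⟨-(z₁ (s, s)) + hh χ s y₁ + τ, ?_⟩
    rw [hxt]
    simp only
    rw [hp₁, sh, hy₁, scal_shift]
    simp only [add_smul]
    abel
  have hhy : hh χ s y₁ = hh χ s z₁ := by rw [hy₁, scal_shift, hh_shift]
  have hxts : ∀ τ, xt τ (s, s) = hh χ s z₁ + τ := fun τ => by
    rw [hxt]
    simp only
    rw [Pi.add_apply, Pi.smul_apply, e0_self, smul_eq_mul, mul_one, hp₁, sh_self, hhy, hy₁,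
      scal_self, zero_mul, zero_add]
  have hthR : ∀ τ, thR e ν i₀ (RingHom.id ℝ) (xt τ) (PP χ s) = A ∧
      thR e ν i₀ (RingHom.id ℝ) (xt τ) (RR χ s) = thR e ν i₀ (RingHom.id ℝ) z₁ (RR χ s) := by
    intro τ
    obtain ⟨t, ht⟩ := hxtz τ
    refine PP_congr χ s (thR e ν i₀ (RingHom.id ℝ) (xt τ)) (thR e ν i₀ (RingHom.id ℝ) z₁)
      (fun c => by rw [thR_C, thR_C]) fun x hx => ?_
    rw [thR_X, thR_X, thet, thet, ht, Pi.add_apply, Pi.smul_apply, e0_of_ne s hx, smul_zero,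
      add_zero]
  have hthF : ∀ τ, thR e ν i₀ (RingHom.id ℝ) (xt τ) (FX χ) =
      A * (SF.cst (fun _ _ => τ) - ψ) := by
    intro τ
    have h1 : thet e ν i₀ (xt τ) (s, s) = SF.cst (algebraMap ℝ (FF a b h ℝ) (xt τ (s, s))) := by
      rw [thet]
      have h2 : (fun (u v : Ed a b h → Bool) => if Edge e ν (s, s).1 (s, s).2 u v then (1:ℝ)
          else 0) = 0 := by
        funext u v
        rw [if_neg (not_edge_self hν hd s u v)]
        rfl
      rw [h2]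
      have h3 : (SF.sgl {lb e ν i₀ (s, s).1} (0 : FF a b h ℝ) :
          SF (Fin b ⊕ Fin a) (FF a b h ℝ)) = 0 := sgl_zero _
      rw [h3, add_zero]
    rw [FX_eq χ s, map_add, map_mul, thR_X, (hthR τ).1, (hthR τ).2, h1, hxts, ← neg_neg
      (thR e ν i₀ (RingHom.id ℝ) z₁ (RR χ s)), ← hψ'1, hψ]
    have h4 : (SF.cst (algebraMap ℝ (FF a b h ℝ) (hh χ s z₁ + τ)) :
        SF (Fin b ⊕ Fin a) (FF a b h ℝ)) = SF.cst (algebraMap ℝ (FF a b h ℝ) (hh χ s z₁)) +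
          SF.cst (fun _ _ => τ) := by
      rw [map_add, map_add]
      rfl
    rw [h4]
    ring
  have hxt0 : Tendsto xt (𝓝 0) (𝓝 p₁) := by
    have h1 : Continuous xt := by
      rw [hxt]
      exact continuous_const.add (continuous_id.smul continuous_const)
    have h2 := h1.tendsto 0
    have h3 : xt 0 = p₁ := by rw [hxt]; simp
    rw [h3] at h2
    exact h2
  have hev : ∀ᶠ τ in 𝓝 (0:ℝ), xt τ ∈ Ω ∧ W (xt τ) ≠ 0 ∧
      ∀ᶠ z in 𝓝 (xt τ), eval z (PP χ s) ^ k * F z = eval z (FX χ) ^ k * W z :=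
    hxt0.eventually ((hΩ.eventually_mem hpΩ).and (((hW 0).continuous.continuousAt.eventually_ne hpW).and
      (eventually_eventually_nhds.2 hfac)))
  have hev' : ∀ᶠ τ in 𝓝[≠] (0:ℝ), τ ≠ 0 ∧ xt τ ∈ Ω ∧ W (xt τ) ≠ 0 ∧
      ∀ᶠ z in 𝓝 (xt τ), eval z (PP χ s) ^ k * F z = eval z (FX χ) ^ k * W z :=
    (eventually_mem_nhdsWithin (a := (0:ℝ)) (s := {0}ᶜ)).and (hev.filter_mono nhdsWithin_le_nhds)
  -- the expansions
  have hgood' : ∀ x, ∃ Q, x ∈ Ω → PE (a + b) F x Q ∧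
      Good (bitFrame a b h) (T κ₁) (Kc * ϑ) (jet ϑ₀ Q) := by
    intro x
    by_cases hx : x ∈ Ω
    · obtain ⟨Q, hQ⟩ := hgood x hx
      exact ⟨Q, fun _ => hQ⟩
    · exact ⟨0, fun h => absurd h hx⟩
  choose Q hQ using hgood'
  set J : ℝ → SF (Fin b ⊕ Fin a) (FF a b h ℝ) := fun τ => jet ϑ₀ (Q (xt τ)) with hJ
  set V : ℝ → SF (Fin b ⊕ Fin a) (FF a b h ℝ) := fun τ => jet ϑ₀ (tay (a + b) W (xt τ)) with hV
  have hJV : ∀ᶠ τ in 𝓝[≠] (0:ℝ), J τ = (SF.cst (fun _ _ => τ) - ψ) ^ k * V τ := by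
    filter_upwards [hev'] with τ hτ
    obtain ⟨hτ0, hτΩ, hτW, hτf⟩ := hτ
    have hpe : ∀ p : MvPolynomial (Fin n × Fin n) ℝ, PE (a + b) (fun z => eval z p) (xt τ)
        (aeval (fun j => C (xt τ j) + MvPolynomial.X j) p) := fun p =>
      PE.aeval (d := a + b) (x := xt τ) (f := fun (j : Fin n × Fin n) z => z j)
        (P := fun j => C (xt τ j) + MvPolynomial.X j) (fun j => PE.var j) p
    have h1 := (hpe (PP χ s ^ k)).mul (hQ _ hτΩ).1
    have h2 := (hpe (FX χ ^ k)).mul (tay_PE (a + b) W (hW (a + b)) (xt τ))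
    have h3 : PE (a + b) (fun z => eval z (PP χ s ^ k) * F z) (xt τ)
        (aeval (fun j => C (xt τ j) + MvPolynomial.X j) (FX χ ^ k) *
          tay (a + b) W (xt τ)) := by
      have hadd : Tendsto (fun y : Fin n × Fin n → ℝ => xt τ + y) (𝓝 0) (𝓝 (xt τ)) := by
        have h6 : Continuous fun y : Fin n × Fin n → ℝ => xt τ + y :=
          continuous_const.add continuous_id
        have h7 := h6.tendsto 0
        simp only [add_zero] at h7
        exact h7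
      refine Asymptotics.IsLittleO.congr' h2 ?_ EventuallyEq.rfl
      filter_upwards [hadd.eventually hτf] with y hy
      have h9 : eval (xt τ + y) (FX χ ^ k) * W (xt τ + y) =
          eval (xt τ + y) (PP χ s ^ k) * F (xt τ + y) := by
        rw [map_pow, map_pow, hy]
      rw [h9]
    have h4 : jet ϑ₀ (aeval (fun j => C (xt τ j) + MvPolynomial.X j) (PP χ s ^ k) * Q (xt τ) -
        aeval (fun j => C (xt τ j) + MvPolynomial.X j) (FX χ ^ k) * tay (a + b) W (xt τ)) = 0 := by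
      refine jet_eq_zero h0 fun μ hμ => ?_
      rw [coeff_sub, PE.zero_of_eq h1 h3 hμ, sub_self]
    rw [map_sub, sub_eq_zero, map_mul, map_mul, jet_shift, jet_shift, leafAt_thet] at h4
    have h5 : ∀ p, thS (RingHom.id ℝ) (thet e ν i₀ (xt τ)) p =
        thR e ν i₀ (RingHom.id ℝ) (xt τ) p := fun p => rfl
    rw [h5, h5, map_pow, map_pow, (hthR τ).1, hthF, mul_pow] at h4
    have h6 : IsUnit (A ^ k) := hAu.pow k
    apply h6.mul_left_cancel
    rw [← mul_assoc]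
    exact h4
  have hF0 : ∀ᶠ τ in 𝓝[≠] (0:ℝ), F (xt τ) ≠ 0 := by
    filter_upwards [hev'] with τ hτ
    obtain ⟨hτ0, hτΩ, hτW, hτf⟩ := hτ
    intro h1
    have h2 := hτf.self_of_nhds
    rw [h1, mul_zero] at h2
    have h3 : eval (xt τ) (PP χ s) = eval z₁ (PP χ s) := by
      obtain ⟨t, ht⟩ := hxtz τ
      rw [ht, (eval_shift χ s z₁ t).1]
    have h4 : hh χ s (xt τ) = hh χ s z₁ := by
      obtain ⟨t, ht⟩ := hxtz τ
      rw [ht, hh_shift]
    have h5 : eval (xt τ) (FX χ) = τ * eval z₁ (PP χ s) := by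
      rw [eval_FX' χ s _ (by rw [h3]; exact hz₁P), h3, h4, hxts, add_sub_cancel_left]
    rw [h5] at h2
    exact mul_ne_zero (pow_ne_zero k (mul_ne_zero hτ0 hz₁P)) hτW h2.symm
  have hJ0 : ∀ᶠ τ in 𝓝[≠] (0:ℝ), J τ ∅ = algebraMap ℝ (FF a b h ℝ) (F (xt τ)) := by
    filter_upwards [hev'] with τ hτ
    rw [hJ]
    simp only
    rw [jet_empty h0, (hQ _ hτ.2.1).1.apply_zero]
  have hexL : ∀ τ, ∃ L' : SF (Fin b ⊕ Fin a) (FF a b h ℝ), IsUnit (J τ ∅) →
      SF.dd i₀ (J τ) = L' * SF.sg i₀ (J τ) := by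
    intro τ
    by_cases hu : IsUnit (J τ ∅)
    · obtain ⟨L', hL'⟩ := exists_LD' i₀ (J τ) hu
      exact ⟨L', fun _ => hL'⟩
    · exact ⟨0, fun h => absurd h hu⟩
  choose L' hL' using hexL
  have hJu : ∀ᶠ τ in 𝓝[≠] (0:ℝ), IsUnit (J τ ∅) := by
    filter_upwards [hJ0, hF0] with τ h1 h2
    rw [h1]
    exact (isUnit_iff_ne_zero.2 h2).map _
  have hrk : ∀ᶠ τ in 𝓝[≠] (0:ℝ), HasRk (L' τ B) ⌊ρ⌋₊ := by
    filter_upwards [hev', hJ0, hF0, hJu] with τ h1 h2 h3 h4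
    obtain ⟨z, hz0, hz1, hzs, hzT⟩ := hscale
    obtain ⟨r, hr, hr'⟩ := ld_rank (F := ℝ) (T₁ := T κ₁) (T₂ := T (κ₁ + 1)) (ϑ := ϑ)
      hϑ0 hKc hz0 hz1 hzs hzT hTK (hQ _ h1.2.1).2 h3 h2 i₀ (hL' τ h4)
    exact hr.mono (Nat.le_floor hr')
  have hcE : Fintype.card (Ed a b h → Bool) = 2 ^ (b * (a * h)) := by
    rw [Fintype.card_fun, Fintype.card_bool, Fintype.card_prod, Fintype.card_prod,
      Fintype.card_fin, Fintype.card_fin, Fintype.card_fin]
  have hle : Fintype.card (Ed a b h → Bool) ≤ (B.card + 1) * ⌊ρ⌋₊ := by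
    by_contra hcon
    push Not at hcon
    apply hdet
    rw [← hψu, ← hBins]
    have hWt : Tendsto (fun τ => W (xt τ)) (𝓝[≠] 0) (𝓝 (W p₁)) :=
      ((hW 0).continuous.tendsto p₁).comp (hxt0.mono_left nhdsWithin_le_nhds)
    refine res_det ψ hψ0 i₀ hk J L' V hpW (fun S u v => ?_) (fun u v => ?_) hJV ?_ hBi hrk hcon
    · have h1 := (tay_cont (a + b) W (hW (a + b)) (jetAt ϑ₀ S u v)).tendsto p₁
      exact ⟨_, h1.comp (hxt0.mono_left nhdsWithin_le_nhds)⟩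
    · refine hWt.congr fun τ => ?_
      rw [hV]
      simp only
      rw [jet_empty h0, (tay_PE (a + b) W (hW (a + b)) (xt τ)).apply_zero]
      rfl
    · filter_upwards [hJu] with τ h1
      exact hL' τ h1
  have hleR : (2:ℝ) ^ (b * (a * h)) ≤ ((a:ℝ) + b) * ρ := by
    have h1 : ((2 ^ (b * (a * h)) : ℕ) : ℝ) ≤ (((B.card + 1) * ⌊ρ⌋₊ : ℕ) : ℝ) := by
      rw [← hcE]
      exact_mod_cast hle
    rw [Nat.cast_pow, Nat.cast_ofNat] at h1
    refine h1.trans ?_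
    rw [hBc, Nat.cast_mul, Nat.cast_add]
    exact mul_le_mul_of_nonneg_left (Nat.floor_le hρ0) (by positivity)
  rw [hρ] at hleR
  set X : ℝ := Kc * ϑ with hX
  have hpos2 : (0:ℝ) < 2 ^ (b * (a * h)) := by positivity
  have h5 : (1:ℝ) ≤ ((a:ℝ) + b) * (2 ^ ((a + b) ^ 2) * X) := by
    by_contra hcon
    rw [not_le] at hcon
    have h6 : ((a:ℝ) + b) * (2 ^ ((a + b) ^ 2) * X * 2 ^ (b * (a * h))) =
        (((a:ℝ) + b) * (2 ^ ((a + b) ^ 2) * X)) * 2 ^ (b * (a * h)) := by ring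
    rw [h6] at hleR
    nlinarith
  have h7 : (0:ℝ) < 2 ^ (a * h * L) := by positivity
  have h8 : ((a:ℝ) + b) * (2 ^ ((a + b) ^ 2) * X) = (((a:ℝ) + b) * 2 ^ ((a + b) ^ 2) *
      Kc) / 2 ^ (a * h * L) := by
    rw [hX, hϑ]
    field_simp
  rw [h8, le_div_iff₀ h7, one_mul] at h5
  exact h5

end Pool.Agent.Y531.San
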