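import Pool.Agent.Y531.San.Bound
import Pool.Agent.Y531.Mul.Tests

/-!
# Decision trees with sign tests of analytic functions, and systems of linear inequalities
-/

set_option autoImplicit false
set_option linter.unusedSectionVars false
set_option maxHeartbeats 1000000
set_option synthInstance.maxHeartbeats 200000

namespace Pool.Agent.Y531.San

open MvPolynomial Topology Filter Pool.Agent.Y531.Mul Pool.Agent.Y531.Hlim
open Pool.Agent.Y531.Smooth (Comb)

/-! ## Trees -/

section tree
variable {σ : Type} [Fintype σ]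

/-- A test: an arbitrary question about the input (`outcome`), with a network of depth `Δ` with
`s ≤ N ^ c` gates, which are analytic functions of `m` arguments, `m ^ q ≤ N`, on open sets, or
polynomials with the property `PolyLimit N c Δ q`. The outcome may change only at the zeros of the
output of the network, and not at points near which the output is zero. -/
structure Test (σ : Type) [Fintype σ] (N c Δ q : ℕ) where
  /-- the number of the gates -/
  s : ℕ
  /-- the number of the arguments of the analytic functions -/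
  m : ℕ
  size : s ≤ N ^ c
  arity : m ^ q ≤ N
  /-- the network -/
  net : Net σ s Δ m {p | PolyLimit N c Δ q p}
  /-- the outcome of the test -/
  outcome : (σ → ℝ) → ℝ
  stable : ∀ (x : σ → ℝ) (F : (σ → ℝ) → ℝ), (∀ᶠ z in 𝓝 x, net.Outputs z (F z)) →
    (F x ≠ 0 ∨ ∀ᶠ z in 𝓝 x, F z = 0) → ∀ᶠ z in 𝓝 x, outcome z = outcome x

/-- A decision tree: `next` tells how the computation continues after a test. -/
inductive Tree (σ : Type) [Fintype σ] (N c Δ q : ℕ) : Type
  | leaf (answer : Bool) : Tree σ N c Δ q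
  | node (t : Test σ N c Δ q) (next : ℝ → Tree σ N c Δ q) : Tree σ N c Δ q

/-- The tree gives the answer `b` for the input `x`; all operations used for `x` are defined. -/
def Tree.Answers {N c Δ q : ℕ} : Tree σ N c Δ q → (σ → ℝ) → Bool → Prop
  | leaf b', _, b => b = b'
  | node t next, x, b => (∃ y, t.net.Outputs x y) ∧ (next (t.outcome x)).Answers x b

variable {s m : ℕ} {cls : Set (MvPolynomial (Fin s) ℝ)}

theorem Net.analyticAt {Δ : ℕ} (P : Net σ s Δ m cls) {F : (σ → ℝ) → ℝ} {x : σ → ℝ}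
    (hF : ∀ᶠ z in 𝓝 x, P.Outputs z (F z)) : AnalyticAt ℝ F x := by
  obtain ⟨g, hg1, hg2⟩ := P.exists_rounds 0 hF.self_of_nhds
  refine hg2.congr ?_
  filter_upwards [hF, hg1] with z h1 h2
  exact h2.unique h1

open Classical in
/-- The sign of the output of a network is a test. -/
noncomputable def Test.sign {N c Δ q s m : ℕ} (size : s ≤ N ^ c) (arity : m ^ q ≤ N)
    (P : Net σ s Δ m {p | PolyLimit N c Δ q p}) : Test σ N c Δ q where
  s := s
  m := m
  size := size
  arity := arity
  net := P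
  outcome x := if h : ∃ y, P.Outputs x y then ((SignType.sign h.choose : SignType) : ℝ) else 0
  stable := by
    intro x F hF hx
    have hval : ∀ z, P.Outputs z (F z) →
        (if h : ∃ y, P.Outputs z y then ((SignType.sign h.choose : SignType) : ℝ) else 0) =
          ((SignType.sign (F z) : SignType) : ℝ) := by
      intro z hz
      rw [dif_pos ⟨_, hz⟩]
      have h : ∃ y, P.Outputs z y := ⟨_, hz⟩
      have h1 : h.choose = F z := h.choose_spec.unique hz
      rw [h1]
    have hFx := hval x hF.self_of_nhds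
    rcases hx with hx | hx
    · have hc : ContinuousAt F x := (P.analyticAt hF).continuousAt
      rcases lt_or_gt_of_ne hx with h | h
      · filter_upwards [hF, hc.eventually_lt continuousAt_const h] with z h1 h2
        rw [hval z h1, hFx, sign_neg h2, sign_neg h]
      · filter_upwards [hF, continuousAt_const.eventually_lt hc h] with z h1 h2
        rw [hval z h1, hFx, sign_pos h2, sign_pos h]
    · filter_upwards [hF, hx] with z h1 h2
      rw [hval z h1, hFx, h2, hx.self_of_nhds]

end tree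

/-! ## Matrices -/

section matrix
variable {n : ℕ}

/-- The sign character. -/
noncomputable def sgn (n : ℕ) (σ : Equiv.Perm (Fin n)) : ℝ := ((Equiv.Perm.sign σ : ℤ) : ℝ)

/-- The matrix with the entries `x`. -/
def mat (x : Fin n × Fin n → ℝ) : Matrix (Fin n) (Fin n) ℝ := Matrix.of fun i j => x (i, j)

theorem eval_sgn (x : Fin n × Fin n → ℝ) : eval x (FX (sgn n)) = (mat x).det := by
  have h1 : FX (sgn n) = gdet ℝ n := FX_sign ℝ n
  rw [h1, eval_gdet]
  rfl

theorem det_shift (x : Fin n × Fin n → ℝ) (s : Fin n) (t : ℝ) :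
    (mat (x + t • e0 s)).det = (mat x).det + t * eval x (PP (sgn n) s) := by
  rw [← eval_sgn, ← eval_sgn, eval_FX (sgn n) s, eval_FX (sgn n) s,
    (eval_shift (sgn n) s x t).1, (eval_shift (sgn n) s x t).2, Pi.add_apply, Pi.smul_apply,
    e0_self, smul_eq_mul, mul_one]
  ring

theorem eval_PP_sgn (x : Fin n × Fin n → ℝ) (s : Fin n) :
    eval x (PP (sgn n) s) = (mat x).adjugate s s := by
  have h1 := det_shift x s 1
  rw [one_smul, one_mul] at h1
  have h2 : mat (x + e0 s) = (mat x).updateRow s (mat x s + Pi.single s 1) := by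
    ext i j
    rw [Matrix.updateRow_apply]
    by_cases hi : i = s
    · rw [if_pos hi]
      by_cases hj : j = s
      · subst hi; subst hj
        simp [mat, e0]
      · subst hi
        rw [Pi.add_apply, Pi.single_eq_of_ne hj]
        show (x + e0 i) (i, j) = _
        rw [Pi.add_apply, e0_of_ne i (fun h => hj (Prod.mk.inj h).2)]
        rfl
    · rw [if_neg hi]
      show (x + e0 s) (i, j) = _
      rw [Pi.add_apply, e0_of_ne s (fun h => hi (Prod.mk.inj h).1), add_zero]
      rfl
  rw [h2, Matrix.det_updateRow_add, Matrix.updateRow_eq_self, ← Matrix.adjugate_apply] at h1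
  linarith

end matrix

/-! ## Systems of linear inequalities -/

variable {n : ℕ}

/-- The system of the `n + 1` inequalities `∑ j, x (i, j) z_j ≥ x (i, n)` has a solution `z` in
`ℝⁿ`. -/
def Feasible (x : Fin (n + 1) × Fin (n + 1) → ℝ) : Prop :=
  ∃ z : Fin n → ℝ, ∀ i, x (i, Fin.last n) ≤ ∑ j : Fin n, x (i, j.castSucc) * z j

/-- The cofactors of the right hand sides. -/
noncomputable def lam (x : Fin (n + 1) × Fin (n + 1) → ℝ) (i : Fin (n + 1)) : ℝ :=
  (mat x).adjugate (Fin.last n) i

/-- The instances on the boundary: the cofactors of the right hand sides are different from zero and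
have the same sign, and the determinant of the matrix of all coefficients and right hand sides is
zero. -/
def Boundary (x : Fin (n + 1) × Fin (n + 1) → ℝ) : Prop :=
  ((∀ i, 0 < lam x i) ∨ ∀ i, lam x i < 0) ∧ (mat x).det = 0

theorem continuous_mat : Continuous (mat (n := n)) := by
  refine continuous_pi fun i => continuous_pi fun j => ?_
  exact continuous_apply (i, j)

theorem continuous_lam (i : Fin (n + 1)) :
    Continuous fun x : Fin (n + 1) × Fin (n + 1) → ℝ => lam x i := by
  have h1 : Continuous fun x : Fin (n + 1) × Fin (n + 1) → ℝ => (mat x).adjugate :=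
    continuous_mat.matrix_adjugate
  exact h1.matrix_elem _ _

theorem continuous_det : Continuous fun x : Fin n × Fin n → ℝ => (mat x).det :=
  continuous_mat.matrix_det

theorem sum_lam (x : Fin (n + 1) × Fin (n + 1) → ℝ) (j : Fin (n + 1)) :
    ∑ i, lam x i * x (i, j) = if j = Fin.last n then (mat x).det else 0 := by
  have h1 := congrFun (congrFun (Matrix.adjugate_mul (mat x)) (Fin.last n)) j
  rw [Matrix.mul_apply, Matrix.smul_apply, Matrix.one_apply, smul_eq_mul] at h1
  have h2 : ∑ i, lam x i * x (i, j) = (mat x).det * if Fin.last n = j then 1 else 0 := h1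
  rw [h2]
  by_cases h : j = Fin.last n
  · rw [if_pos h, if_pos h.symm, mul_one]
  · rw [if_neg h, if_neg (fun h' => h h'.symm), mul_zero]

theorem infeasible {x : Fin (n + 1) × Fin (n + 1) → ℝ} {ε : ℝ} (hl : ∀ i, 0 < ε * lam x i)
    (hd : 0 < ε * (mat x).det) : ¬ Feasible x := by
  rintro ⟨z, hz⟩
  have h1 : ∑ i, (ε * lam x i) * x (i, Fin.last n) ≤
      ∑ i, (ε * lam x i) * ∑ j : Fin n, x (i, j.castSucc) * z j :=
    Finset.sum_le_sum fun i _ => mul_le_mul_of_nonneg_left (hz i) (hl i).le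
  have h2 : ∑ i, (ε * lam x i) * x (i, Fin.last n) = ε * (mat x).det := by
    have h3 := sum_lam x (Fin.last n)
    rw [if_pos rfl] at h3
    rw [← h3, Finset.mul_sum]
    exact Finset.sum_congr rfl fun i _ => by ring
  have h3 : ∑ i, (ε * lam x i) * ∑ j : Fin n, x (i, j.castSucc) * z j = 0 := by
    have h4 : ∀ j : Fin n, ∑ i, lam x i * x (i, j.castSucc) = 0 := by
      intro j
      rw [sum_lam, if_neg (Fin.castSucc_lt_last j).ne]
    calc ∑ i, (ε * lam x i) * ∑ j : Fin n, x (i, j.castSucc) * z j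
        = ∑ i, ∑ j : Fin n, (ε * z j) * (lam x i * x (i, j.castSucc)) := by
          refine Finset.sum_congr rfl fun i _ => ?_
          rw [Finset.mul_sum]
          exact Finset.sum_congr rfl fun j _ => by ring
      _ = ∑ j : Fin n, ∑ i, (ε * z j) * (lam x i * x (i, j.castSucc)) := Finset.sum_comm
      _ = 0 := by
          refine Finset.sum_eq_zero fun j _ => ?_
          rw [← Finset.mul_sum, h4, mul_zero]
  rw [h2, h3] at h1
  linarith

theorem feasible {x : Fin (n + 1) × Fin (n + 1) → ℝ} {ε : ℝ} (hl : ∀ i, 0 < ε * lam x i)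
    (hd : ε * (mat x).det < 0) : Feasible x := by
  have hdet : (mat x).det ≠ 0 := by
    intro h; rw [h, mul_zero] at hd; exact lt_irrefl _ hd
  set w : Fin (n + 1) → ℝ := (mat x)⁻¹.mulVec (fun _ => 1) with hw
  have h1 : (mat x).mulVec w = fun _ => 1 := by
    rw [hw, Matrix.mulVec_mulVec, Matrix.mul_nonsing_inv _ (isUnit_iff_ne_zero.2 hdet),
      Matrix.one_mulVec]
  have h2 : w (Fin.last n) = (∑ i, lam x i) / (mat x).det := by
    rw [hw, Matrix.inv_def, Matrix.smul_mulVec, Pi.smul_apply, Ring.inverse_eq_inv', smul_eq_mul,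
      div_eq_inv_mul]
    congr 1
    rw [Matrix.mulVec, dotProduct]
    exact Finset.sum_congr rfl fun i _ => by rw [mul_one]; rfl
  have hpos : 0 < ∑ i, ε * lam x i := Finset.sum_pos (fun i _ => hl i) ⟨0, Finset.mem_univ _⟩
  have h3 : w (Fin.last n) < 0 := by
    have h4 : w (Fin.last n) = (∑ i, ε * lam x i) / (ε * (mat x).det) := by
      rw [h2, ← Finset.mul_sum]
      have hε : ε ≠ 0 := by
        rintro rfl
        rw [zero_mul] at hd
        exact lt_irrefl _ hd
      rw [mul_div_mul_left _ _ hε]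
    rw [h4]
    exact div_neg_of_pos_of_neg hpos hd
  set c := -w (Fin.last n) with hc
  have hc0 : 0 < c := by rw [hc]; linarith
  refine ⟨fun j => w j.castSucc / c, fun i => ?_⟩
  have h4 : ∑ j : Fin n, x (i, j.castSucc) * w j.castSucc + x (i, Fin.last n) * w (Fin.last n) =
      1 := by
    have h5 := congrFun h1 i
    rw [Matrix.mulVec, dotProduct, Fin.sum_univ_castSucc] at h5
    exact h5
  have h5 : ∑ j : Fin n, x (i, j.castSucc) * (w j.castSucc / c) =
      (∑ j : Fin n, x (i, j.castSucc) * w j.castSucc) / c := by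
    rw [Finset.sum_div]
    exact Finset.sum_congr rfl fun j _ => by ring
  rw [h5, le_div_iff₀ hc0]
  have h6 : w (Fin.last n) = -c := by rw [hc]; ring
  rw [h6] at h4
  linarith

/-- The tree gives a wrong answer. -/
def Tree.Wrong {N c Δ q : ℕ} (t : Tree (Fin (n + 1) × Fin (n + 1)) N c Δ q)
    (x : Fin (n + 1) × Fin (n + 1) → ℝ) : Prop :=
  ∃ b : Bool, t.Answers x b ∧ ¬ (b = true ↔ Feasible x)

/-- The cofactors are different from zero and have the same sign `ε`. -/
def Same (ε : ℝ) (x : Fin (n + 1) × Fin (n + 1) → ℝ) : Prop := ∀ i, 0 < ε * lam x i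

theorem isOpen_same (ε : ℝ) : IsOpen {x : Fin (n + 1) × Fin (n + 1) → ℝ | Same ε x} := by
  have h1 : {x : Fin (n + 1) × Fin (n + 1) → ℝ | Same ε x} =
      ⋂ i, {x | 0 < ε * lam x i} := by
    ext x
    simp [Same]
  rw [h1]
  exact isOpen_iInter_of_finite fun i =>
    isOpen_lt continuous_const (continuous_const.mul (continuous_lam i))

theorem boundary_iff {x : Fin (n + 1) × Fin (n + 1) → ℝ} (hx : Boundary x) :
    ∃ ε : ℝ, Same ε x ∧ (mat x).det = 0 := by
  obtain ⟨h1 | h1, h2⟩ := hx
  · exact ⟨1, fun i => by rw [one_mul]; exact h1 i, h2⟩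
  · exact ⟨-1, fun i => by rw [neg_one_mul]; exact neg_pos.2 (h1 i), h2⟩

/-- **The answer of a tree does not change near some point of the boundary.** -/
theorem tree_const (c Δ : ℕ) : ∃ q n₀ : ℕ, ∀ n, n₀ ≤ n → ∀ ε : ℝ,
    ∀ t : Tree (Fin (n + 1) × Fin (n + 1)) (n + 1) c Δ q,
    ∀ U : Set (Fin (n + 1) × Fin (n + 1) → ℝ), IsOpen U → (∀ x ∈ U, ∃ b, t.Answers x b) →
    ∀ x₀ ∈ U, Same ε x₀ → (mat x₀).det = 0 →
    ∃ x₁ ∈ U, Same ε x₁ ∧ (mat x₁).det = 0 ∧ ∃ b, ∀ᶠ x in 𝓝 x₁, t.Answers x b := by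
  classical
  obtain ⟨d, q₀, n₀, hd, H⟩ := net_zero c Δ
  refine ⟨q₀, n₀, ?_⟩
  intro n hn ε t
  have hsgn : ∀ σ, sgn (n + 1) σ ≠ 0 := fun σ => by
    rw [sgn]
    rcases Int.units_eq_one_or (Equiv.Perm.sign σ) with h | h <;> rw [h] <;> norm_num
  induction t with
  | leaf b' =>
    intro U hU hans x₀ hx₀ hS hdet
    exact ⟨x₀, hx₀, hS, hdet, b', Eventually.of_forall fun x => rfl⟩
  | node T next ih =>
    intro U hU hans x₀ hx₀ hS hdet
    have hout : ∀ x, ∃ y, x ∈ U → T.net.Outputs x y := by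
      intro x
      by_cases hx : x ∈ U
      · obtain ⟨b, ⟨y, hy⟩, _⟩ := hans x hx
        exact ⟨y, fun _ => hy⟩
      · exact ⟨0, fun h => absurd h hx⟩
    choose F hF using hout
    -- a point where the outcome does not change
    obtain ⟨x₂, hx₂U, hx₂S, hx₂d, hx₂F⟩ : ∃ x₂ ∈ U, Same ε x₂ ∧ (mat x₂).det = 0 ∧
        (F x₂ ≠ 0 ∨ ∀ᶠ z in 𝓝 x₂, F z = 0) := by
      by_contra hcon
      refine hcon ⟨x₀, hx₀, hS, hdet, Or.inr ?_⟩
      refine H (n + 1) (hn.trans (Nat.le_succ n)) (sgn (n + 1)) (hsgn 1) (fun σ _ _ => hsgn σ)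
        (Fin.last n) T.s T.m T.size T.arity T.net (U ∩ {x | Same ε x})
        (hU.inter (isOpen_same ε)) F (fun x hx => hF x hx.1) (fun x hx hx' => ?_)
        x₀ ⟨hx₀, hS⟩ ?_ ?_
      · rw [eval_sgn] at hx'
        by_contra h
        exact hcon ⟨x, hx.1, hx.2, hx', Or.inl h⟩
      · rw [eval_sgn]
        exact hdet
      · rw [eval_PP_sgn]
        intro h0
        have h1 := hS (Fin.last n)
        rw [lam, h0, mul_zero] at h1
        exact lt_irrefl _ h1
    have h1 : ∀ᶠ z in 𝓝 x₂, T.outcome z = T.outcome x₂ := by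
      refine T.stable x₂ F ?_ hx₂F
      filter_upwards [hU.mem_nhds hx₂U] with z hz
      exact hF z hz
    obtain ⟨V, hV, hVo, hVx⟩ := eventually_nhds_iff.1 h1
    obtain ⟨x₁, hx₁, h1, h2, b, h3⟩ := ih (T.outcome x₂) (U ∩ V) (hU.inter hVo) (fun x hx => by
      obtain ⟨b, _, h⟩ := hans x hx.1
      rw [hV x hx.2] at h
      exact ⟨b, h⟩) x₂ ⟨hx₂U, hVx⟩ hx₂S hx₂d
    refine ⟨x₁, hx₁.1, h1, h2, b, ?_⟩
    filter_upwards [h3, (hU.inter hVo).mem_nhds hx₁] with x h4 h5
    refine ⟨⟨F x, hF x h5.1⟩, ?_⟩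
    rw [hV x h5.2]
    exact h4

/-- **Both sides of the boundary.** -/
theorem both_sides {ε : ℝ} {x₁ : Fin (n + 1) × Fin (n + 1) → ℝ} (hS : Same ε x₁)
    (hdet : (mat x₁).det = 0) {V : Set (Fin (n + 1) × Fin (n + 1) → ℝ)} (hV : IsOpen V)
    (hx₁ : x₁ ∈ V) :
    (∃ x ∈ V, Same ε x ∧ 0 < ε * (mat x).det) ∧ ∃ x ∈ V, Same ε x ∧ ε * (mat x).det < 0 := by
  have hP : 0 < ε * eval x₁ (PP (sgn (n + 1)) (Fin.last n)) := by
    rw [eval_PP_sgn]
    exact hS (Fin.last n)
  have hV' : ∀ᶠ t in 𝓝 (0:ℝ), x₁ + t • e0 (Fin.last n) ∈ V ∩ {x | Same ε x} := by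
    have h1 : Continuous fun t : ℝ => x₁ + t • e0 (Fin.last n) :=
      continuous_const.add (continuous_id.smul continuous_const)
    have h2 := h1.tendsto 0
    simp only [zero_smul, add_zero] at h2
    exact h2.eventually ((hV.inter (isOpen_same ε)).mem_nhds ⟨hx₁, hS⟩)
  obtain ⟨δ, hδ, hball⟩ := Metric.eventually_nhds_iff.1 hV'
  have hdt : ∀ t : ℝ, ε * (mat (x₁ + t • e0 (Fin.last n))).det =
      t * (ε * eval x₁ (PP (sgn (n + 1)) (Fin.last n))) := by
    intro t
    rw [det_shift, hdet, zero_add]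
    ring
  constructor
  · have h1 := hball (y := δ / 2) (by rw [dist_zero_right, Real.norm_eq_abs, abs_of_pos (by positivity)]; linarith)
    refine ⟨_, h1.1, h1.2, ?_⟩
    rw [hdt]
    positivity
  · have h1 := hball (y := -(δ / 2)) (by
      rw [dist_zero_right, Real.norm_eq_abs, abs_neg, abs_of_pos (by positivity)]; linarith)
    refine ⟨_, h1.1, h1.2, ?_⟩
    rw [hdt, neg_mul]
    exact neg_neg_of_pos (by positivity)

/-- **Trees which decide systems of linear inequalities.** -/
theorem tree_wrong (c Δ : ℕ) : ∃ q n₀ : ℕ, ∀ n, n₀ ≤ n →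
    ∀ t : Tree (Fin (n + 1) × Fin (n + 1)) (n + 1) c Δ q,
    ∀ U : Set (Fin (n + 1) × Fin (n + 1) → ℝ), IsOpen U → (∀ x ∈ U, ∃ b, t.Answers x b) →
    (∃ x ∈ U, Boundary x) → ∃ V ⊆ U, IsOpen V ∧ V.Nonempty ∧ ∀ x ∈ V, t.Wrong x := by
  classical
  obtain ⟨q, n₀, H⟩ := tree_const c Δ
  refine ⟨q, n₀, ?_⟩
  rintro n hn t U hU hans ⟨x₀, hx₀, hB⟩
  obtain ⟨ε, hS, hdet⟩ := boundary_iff hB
  obtain ⟨x₁, hx₁, hS₁, hdet₁, b, hb⟩ := H n hn ε t U hU hans x₀ hx₀ hS hdet
  obtain ⟨V, hV, hVo, hVx⟩ := eventually_nhds_iff.1 hb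
  obtain ⟨⟨x₂, hx₂, hS₂, hd₂⟩, x₃, hx₃, hS₃, hd₃⟩ := both_sides hS₁ hdet₁ (hU.inter hVo) ⟨hx₁, hVx⟩
  cases b with
  | true =>
    refine ⟨(U ∩ V) ∩ ({x | Same ε x} ∩ {x | 0 < ε * (mat x).det}), fun x hx => hx.1.1,
      (hU.inter hVo).inter ((isOpen_same ε).inter (isOpen_lt continuous_const
        (continuous_const.mul continuous_det))), ⟨x₂, hx₂, hS₂, hd₂⟩, ?_⟩
    intro x hx
    exact ⟨true, hV x hx.1.2, fun h => infeasible hx.2.1 hx.2.2 (h.1 rfl)⟩
  | false =>
    refine ⟨(U ∩ V) ∩ ({x | Same ε x} ∩ {x | ε * (mat x).det < 0}), fun x hx => hx.1.1,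
      (hU.inter hVo).inter ((isOpen_same ε).inter (isOpen_lt
        (continuous_const.mul continuous_det) continuous_const)), ⟨x₃, hx₃, hS₃, hd₃⟩, ?_⟩
    intro x hx
    exact ⟨false, hV x hx.1.2, fun h => absurd (h.2 (feasible hx.2.1 hx.2.2)) (by decide)⟩

/-- An instance on the boundary. -/
theorem exists_boundary (n : ℕ) : ∃ x : Fin (n + 1) × Fin (n + 1) → ℝ, Boundary x := by
  classical
  set M : Matrix (Fin (n + 1)) (Fin (n + 1)) ℝ := Matrix.of fun i j =>
    Fin.lastCases (Fin.lastCases (-(n : ℝ)) (fun _ => (-1 : ℝ)) j)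
      (fun i' => Fin.lastCases (1 : ℝ) (fun j' => if i' = j' then 1 else 0) j) i with hM
  have hcc : ∀ i j : Fin n, M i.castSucc j.castSucc = if i = j then 1 else 0 := fun i j => by
    simp [hM]
  have hcl : ∀ i : Fin n, M i.castSucc (Fin.last n) = 1 := fun i => by simp [hM]
  have hlc : ∀ j : Fin n, M (Fin.last n) j.castSucc = -1 := fun j => by simp [hM]
  have hll : M (Fin.last n) (Fin.last n) = -(n:ℝ) := by simp [hM]
  have hcol : ∀ j, ∑ i, M i j = 0 := by
    intro j
    rw [Fin.sum_univ_castSucc]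
    refine Fin.lastCases ?_ (fun j => ?_) j
    · simp only [hcl, hll]
      simp
    · simp only [hcc, hlc]
      simp
  have hdet : M.det = 0 := by
    refine Matrix.exists_vecMul_eq_zero_iff.1 ⟨fun _ => 1, ?_, ?_⟩
    · intro h
      have := congrFun h (Fin.last n)
      exact one_ne_zero this
    · funext j
      rw [Matrix.vecMul, dotProduct]
      simp only [one_mul]
      exact hcol j
  have hll1 : M.adjugate (Fin.last n) (Fin.last n) = 1 := by
    rw [Matrix.adjugate_apply]
    have hB : (M.updateRow (Fin.last n) (Pi.single (Fin.last n) 1)).BlockTriangular id := by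
      intro i j hij
      have hij' : j < i := hij
      refine Fin.lastCases (motive := fun i => j < i →
        M.updateRow (Fin.last n) (Pi.single (Fin.last n) 1) i j = 0) (fun hj => ?_)
        (fun i hj => ?_) i hij'
      · rw [Matrix.updateRow_self, Pi.single_eq_of_ne hj.ne]
      · rw [Matrix.updateRow_ne (Fin.castSucc_lt_last i).ne]
        refine Fin.lastCases (motive := fun j => j < i.castSucc → M i.castSucc j = 0)
          (fun hj => ?_) (fun j hj => ?_) j hj
        · exact absurd (hj.trans (Fin.castSucc_lt_last i)) (lt_irrefl _)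
        · rw [hcc, if_neg]
          rintro rfl
          exact lt_irrefl _ hj
    rw [Matrix.det_of_isUpperTriangular hB]
    refine Finset.prod_eq_one fun i _ => ?_
    refine Fin.lastCases ?_ (fun i => ?_) i
    · rw [Matrix.updateRow_self, Pi.single_eq_same]
    · rw [Matrix.updateRow_ne (Fin.castSucc_lt_last i).ne, hcc, if_pos rfl]
  have hadj : ∀ j : Fin n, M.adjugate (Fin.last n) j.castSucc = 1 := by
    intro j
    have h1 := congrFun (congrFun (Matrix.adjugate_mul M) (Fin.last n)) j.castSucc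
    rw [hdet, zero_smul, Matrix.zero_apply, Matrix.mul_apply, Fin.sum_univ_castSucc, hlc,
      hll1] at h1
    simp only [hcc, mul_ite, mul_one, mul_zero, Finset.sum_ite_eq', Finset.mem_univ, if_true]
      at h1
    linarith
  refine ⟨fun p => M p.1 p.2, Or.inl fun i => ?_, ?_⟩
  · have h1 : mat (fun p : Fin (n + 1) × Fin (n + 1) => M p.1 p.2) = M := rfl
    rw [lam, h1]
    refine Fin.lastCases ?_ (fun i => ?_) i
    · rw [hll1]; exact one_pos
    · rw [hadj]; exact one_pos
  · exact hdet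

end Pool.Agent.Y531.San
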