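import Pool.Agent.Y531.Smooth.Model

/-!
# Networks of analytic functions and of polynomials of a given class

Each gate applies one operation: a real function of `m` arguments which is analytic on an open set, or
a polynomial of the class `cls` in `s` arguments. The arguments are linear combinations of `1`, of the
inputs and of gates of smaller depth.
-/

set_option autoImplicit false

namespace Pool.Agent.Y531.San

open Pool.Agent.Y531.Smooth (Comb)

variable {σ : Type} [Fintype σ] {s m : ℕ} {cls : Set (MvPolynomial (Fin s) ℝ)}

/-- The operations: a function of `m` linear combinations which is analytic on an open set `D`, or a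
polynomial of the class `cls` in `s` linear combinations. -/
inductive Op (σ : Type) (s m : ℕ) (cls : Set (MvPolynomial (Fin s) ℝ)) : Type
  | fn (D : Set (Fin m → ℝ)) (φ : (Fin m → ℝ) → ℝ) (isOpen : IsOpen D)
      (analytic : AnalyticOnNhd ℝ φ D) (arg : Fin m → Comb σ s) : Op σ s m cls
  | poly (p : MvPolynomial (Fin s) ℝ) (mem : p ∈ cls) (arg : Fin s → Comb σ s) : Op σ s m cls

/-- The operation is defined and its value is `y`. -/
def Op.Gives : Op σ s m cls → (σ → ℝ) → (Fin s → ℝ) → ℝ → Prop
  | fn D φ _ _ arg, x, v, y => (fun j => (arg j).val x v) ∈ D ∧ y = φ fun j => (arg j).val x v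
  | poly p _ arg, x, v, y => y = MvPolynomial.eval (fun j => (arg j).val x v) p

/-- The gate `i` occurs in the arguments of the operation. -/
def Op.Reads (i : Fin s) : Op σ s m cls → Prop
  | fn _ _ _ _ arg => ∃ j, (arg j).gate i ≠ 0
  | poly _ _ arg => ∃ j, (arg j).gate i ≠ 0

/-- A network with `s` gates, of depth at most `Δ`. -/
structure Net (σ : Type) (s Δ m : ℕ) (cls : Set (MvPolynomial (Fin s) ℝ)) where
  /-- the operation which is applied at a gate -/
  op : Fin s → Op σ s m cls
  /-- the depth of a gate -/
  depth : Fin s → ℕ
  depth_le : ∀ i, depth i ≤ Δ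
  reads : ∀ i i', (op i).Reads i' → depth i' < depth i
  /-- the linear combination which is given out -/
  out : Comb σ s

/-- The operations are defined for the input `x` and the output is `y`. -/
def Net.Outputs {Δ : ℕ} (P : Net σ s Δ m cls) (x : σ → ℝ) (y : ℝ) : Prop :=
  ∃ v : Fin s → ℝ, (∀ i, (P.op i).Gives x v (v i)) ∧ y = P.out.val x v

end Pool.Agent.Y531.San
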