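import Pool.Agent.Y531.San.Param

/-!
# Taylor polynomials which depend continuously on the point, smooth extensions, flat functions
-/

set_option autoImplicit false
set_option linter.unusedSectionVars false

namespace Pool.Agent.Y531.San

open MvPolynomial Topology Filter Asymptotics Pool.Agent.Y531.Smooth

variable {σ : Type} [Fintype σ]

section integ

theorem coeff_integ (Q : MvPolynomial σ ℝ) (μ : σ →₀ ℕ) :
    coeff μ (integ Q) = coeff μ Q / (μ.degree + 1) := by
  classical
  rw [integ, coeff_sum]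
  simp only [coeff_monomial]
  rw [Finset.sum_ite_eq']
  by_cases h : μ ∈ Q.support
  · rw [if_pos h]
  · rw [if_neg h, notMem_support_iff.1 h, zero_div]

/-- The radial integration is linear. -/
noncomputable def integL : MvPolynomial σ ℝ →ₗ[ℝ] MvPolynomial σ ℝ where
  toFun := integ
  map_add' P Q := by
    ext μ
    rw [coeff_add, coeff_integ, coeff_integ, coeff_integ, coeff_add, add_div]
  map_smul' c P := by
    ext μ
    rw [RingHom.id_apply, coeff_smul, coeff_integ, coeff_integ, coeff_smul, smul_eq_mul,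
      smul_eq_mul, mul_div_assoc]

end integ

section tay
variable [DecidableEq σ]

/-- The Taylor polynomial. -/
noncomputable def tay : ℕ → ((σ → ℝ) → ℝ) → (σ → ℝ) → MvPolynomial σ ℝ
  | 0, f, x => C (f x)
  | d + 1, f, x => C (f x) + ∑ j, X j * integ (tay d (pd j f) x)

theorem tay_PE : ∀ (d : ℕ) (f : (σ → ℝ) → ℝ), ContDiff ℝ d f → ∀ x, PE d f x (tay d f x) := by
  intro d
  induction d with
  | zero =>
    intro f hf x
    rw [PE]
    simp only [tay, eval_C, pow_zero]
    rw [isLittleO_one_iff]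
    have h1 : Tendsto (fun y : σ → ℝ => f (x + y)) (𝓝 0) (𝓝 (f (x + 0))) :=
      (hf.continuous.comp (continuous_const.add continuous_id)).tendsto 0
    rw [add_zero] at h1
    have h2 := h1.sub_const (f x)
    rwa [sub_self] at h2
  | succ d ih =>
    intro f hf x
    exact PE.of_pd (hf.differentiable (by norm_cast)) fun j => ih (pd j f) (contDiff_pd hf j) x

/-- **The Taylor polynomial depends continuously on the point.** -/
theorem tay_cont : ∀ (d : ℕ) (f : (σ → ℝ) → ℝ), ContDiff ℝ d f →
    ∀ ℓ : MvPolynomial σ ℝ →ₗ[ℝ] ℝ, Continuous fun x => ℓ (tay d f x) := by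
  intro d
  have hC : ∀ (f : (σ → ℝ) → ℝ), Continuous f → ∀ ℓ : MvPolynomial σ ℝ →ₗ[ℝ] ℝ,
      Continuous fun x => ℓ (C (f x)) := by
    intro f hf ℓ
    have h1 : ∀ x, ℓ (C (f x)) = f x * ℓ 1 := by
      intro x
      have h2 : (C (f x) : MvPolynomial σ ℝ) = f x • 1 := by
        rw [MvPolynomial.smul_eq_C_mul, mul_one]
      rw [h2, map_smul, smul_eq_mul]
    simp only [h1]
    exact hf.mul continuous_const
  induction d with
  | zero =>
    intro f hf ℓ
    exact hC f hf.continuous ℓ
  | succ d ih =>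
    intro f hf ℓ
    have h1 : ∀ x, ℓ (tay (d + 1) f x) = ℓ (C (f x)) +
        ∑ j, (ℓ.comp ((LinearMap.mulLeft ℝ (X j)).comp integL)) (tay d (pd j f) x) := by
      intro x
      rw [tay, map_add, map_sum]
      rfl
    simp only [h1]
    refine (hC f hf.continuous ℓ).add (continuous_finsetSum _ fun j _ => ?_)
    exact ih (pd j f) (contDiff_pd hf j) _

end tay

/-- **Smooth extensions.** -/
theorem exists_global {D : Set (σ → ℝ)} (hD : IsOpen D) {f : (σ → ℝ) → ℝ}
    (hf : ∀ n : ℕ, ContDiffOn ℝ n f D) {x : σ → ℝ} (hx : x ∈ D) :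
    ∃ g : (σ → ℝ) → ℝ, (∀ n : ℕ, ContDiff ℝ n g) ∧ g =ᶠ[𝓝 x] f := by
  classical
  obtain ⟨ε, hε, hεD⟩ := Metric.isOpen_iff.1 hD x hx
  let b : ContDiffBump x := ⟨ε / 4, ε / 2, by positivity, by linarith⟩
  have hb : Metric.closedBall x b.rOut ⊆ D :=
    (Metric.closedBall_subset_ball (by show ε / 2 < ε; linarith)).trans hεD
  refine ⟨fun z => b z * f z, ?_, ?_⟩
  · intro n
    rw [contDiff_iff_contDiffAt]
    intro z
    by_cases hz : z ∈ D
    · exact (b.contDiff.contDiffAt).mul ((hf n).contDiffAt (hD.mem_nhds hz))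
    · have h2 : z ∉ tsupport b := by
        rw [b.tsupport_eq]
        exact fun h => hz (hb h)
      have h3 : (fun z => b z * f z) =ᶠ[𝓝 z] fun _ => 0 := by
        filter_upwards [notMem_tsupport_iff_eventuallyEq.1 h2] with w hw
        rw [hw]
        exact zero_mul _
      exact contDiffAt_const.congr_of_eventuallyEq h3
  · filter_upwards [b.eventuallyEq_one] with z hz
    rw [hz, Pi.one_apply, one_mul]

/-- **Flat analytic functions are zero.** -/
theorem flat_zero {f : (σ → ℝ) → ℝ} {x : σ → ℝ} (hf : AnalyticAt ℝ f x)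
    (hflat : ∀ k : ℕ, (fun y => f (x + y)) =O[𝓝 0] fun y => ‖y‖ ^ k) : f =ᶠ[𝓝 x] 0 := by
  obtain ⟨p, hp⟩ := hf
  have h1 : ∀ n, ∀ y, p n (fun _ => y) = 0 := by
    intro n
    induction n using Nat.strong_induction_on with
    | _ n ih =>
      intro y
      refine Asymptotics.IsBigO.continuousMultilinearMap_apply_eq_zero ?_ y
      have h2 := hp.isBigO_sub_partialSum_pow (n + 1)
      have h3 := (hflat (n + 1)).sub h2
      refine h3.congr_left fun z => ?_
      rw [sub_sub_cancel, FormalMultilinearSeries.partialSum, Finset.sum_range_succ,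
        Finset.sum_eq_zero fun i hi => ih i (Finset.mem_range.1 hi) z, zero_add]
  obtain ⟨r, hr⟩ := hp
  have h2 : ∀ᶠ y in 𝓝 x, y ∈ Metric.eball x r := hr.eventually_hasSum_sub.and
    (Metric.eball_mem_nhds x hr.r_pos) |>.mono fun y hy => hy.2
  filter_upwards [hr.eventually_hasSum_sub] with y hy
  have h3 : HasSum (fun n => p n fun _ => y - x) 0 := by
    simp only [h1]
    exact hasSum_zero
  exact hy.unique h3

end Pool.Agent.Y531.San
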