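import Pool.Agent.Y531.San.Model
import Pool.Agent.Y531.San.Tay
import Pool.Agent.Y531.Snet.Main

/-!
# The values of a network of analytic functions
-/

set_option autoImplicit false
set_option linter.unusedSectionVars false
set_option maxHeartbeats 1000000
set_option synthInstance.maxHeartbeats 200000

namespace Pool.Agent.Y531.San

open MvPolynomial Topology Filter Pool.Agent.W942 Pool.Agent.Y531 Pool.Agent.Y531.Mul
  Pool.Agent.Y531.Hit Pool.Agent.Y531.Hlim Pool.Agent.Y531.Sgen
open Pool.Agent.Y531.Smooth (Comb PE Comb.val_congr)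
open Pool.Agent.Y531.Snet (GOp rounds rounds_eq rcost Mild one_le_rcost rounds_good)

variable {σ : Type} [Fintype σ] {s m : ℕ} {cls : Set (MvPolynomial (Fin s) ℝ)}

theorem Op.Gives.unique {o : Op σ s m cls} {x : σ → ℝ} {v : Fin s → ℝ} {y y' : ℝ}
    (h : o.Gives x v y) (h' : o.Gives x v y') : y = y' := by
  cases o with
  | fn D φ isOpen analytic arg => exact h.2.trans h'.2.symm
  | poly p mem arg => exact Eq.trans h (Eq.symm h')

theorem Op.Gives.congr {o : Op σ s m cls} {x : σ → ℝ} {v w : Fin s → ℝ} {y : ℝ}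
    (hvw : ∀ i, o.Reads i → v i = w i) (h : o.Gives x v y) : o.Gives x w y := by
  cases o with
  | fn D φ isOpen analytic arg =>
    have h1 : (fun j => (arg j).val x v) = fun j => (arg j).val x w := by
      funext j
      exact Comb.val_congr fun i hi => hvw i ⟨j, hi⟩
    obtain ⟨h2, h3⟩ := h
    rw [h1] at h2 h3
    exact ⟨h2, h3⟩
  | poly p mem arg =>
    have h1 : (fun j => (arg j).val x v) = fun j => (arg j).val x w := by
      funext j
      exact Comb.val_congr fun i hi => hvw i ⟨j, hi⟩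
    have h2 : y = MvPolynomial.eval (fun j => (arg j).val x v) p := h
    rw [h1] at h2
    exact h2

/-- The values of the gates are determined by the input. -/
theorem Net.values_unique {Δ : ℕ} (P : Net σ s Δ m cls) {x : σ → ℝ} {v w : Fin s → ℝ}
    (hv : ∀ i, (P.op i).Gives x v (v i)) (hw : ∀ i, (P.op i).Gives x w (w i)) : v = w := by
  have key : ∀ t i, P.depth i < t → v i = w i := by
    intro t
    induction t with
    | zero => intro i hi; exact absurd hi (Nat.not_lt_zero _)
    | succ t ih =>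
      intro i hi
      refine Op.Gives.unique (hv i) ((hw i).congr fun i' hi' => ?_)
      exact (ih i' ((P.reads i i' hi').trans_le (Nat.lt_succ_iff.1 hi))).symm
  funext i
  exact key (P.depth i + 1) i (Nat.lt_succ_self _)

theorem Net.Outputs.unique {Δ : ℕ} {P : Net σ s Δ m cls} {x : σ → ℝ} {y y' : ℝ}
    (h : P.Outputs x y) (h' : P.Outputs x y') : y = y' := by
  obtain ⟨v, hv, rfl⟩ := h
  obtain ⟨w, hw, rfl⟩ := h'
  rw [P.values_unique hv hw]

theorem analyticAt_comb {c : Comb σ s} {F : (σ → ℝ) → Fin s → ℝ} {x : σ → ℝ}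
    (hF : ∀ i, c.gate i ≠ 0 → AnalyticAt ℝ (fun z => F z i) x) :
    AnalyticAt ℝ (fun z => c.val z (F z)) x := by
  have h1 : AnalyticAt ℝ (fun z : σ → ℝ => c.const + ∑ j, c.input j * z j +
      ∑ i, c.gate i * F z i) x := by
    refine (analyticAt_const.add (Finset.analyticAt_fun_sum _ fun j _ => ?_)).add
      (Finset.analyticAt_fun_sum _ fun i _ => ?_)
    · exact analyticAt_const.mul ((ContinuousLinearMap.proj (R := ℝ) (φ := fun _ : σ => ℝ)
        j).analyticAt x)
    · by_cases h : c.gate i = 0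
      · simp only [h, zero_mul]
        exact analyticAt_const
      · exact analyticAt_const.mul (hF i h)
  exact h1

theorem continuous_comb (c : Comb σ s) :
    Continuous fun p : (σ → ℝ) × (Fin s → ℝ) => c.val p.1 p.2 := by
  unfold Comb.val
  fun_prop

/-- **Smooth extensions of an operation.** -/
theorem Op.exists_gop (o : Op σ s m cls) (d : ℕ) {x : σ → ℝ} {v : Fin s → ℝ} {y : ℝ}
    (h : o.Gives x v y) : ∃ g : GOp σ s m d cls, (∀ i, g.Reads i → o.Reads i) ∧
      (∀ᶠ p : (σ → ℝ) × (Fin s → ℝ) in 𝓝 (x, v), o.Gives p.1 p.2 (g.val p.1 p.2)) ∧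
      ∀ F : (σ → ℝ) → Fin s → ℝ, (∀ i, o.Reads i → AnalyticAt ℝ (fun z => F z i) x ∧
        F x i = v i) → AnalyticAt ℝ (fun z => g.val z (F z)) x := by
  cases o with
  | poly p mem arg =>
    refine ⟨GOp.poly p mem arg, fun i h => h, Eventually.of_forall fun q => rfl, ?_⟩
    intro F hF
    have h1 : AnalyticAt ℝ (fun z => MvPolynomial.aeval (fun j => (arg j).val z (F z)) p) x :=
      AnalyticAt.aeval_mvPolynomial (f := fun z j => (arg j).val z (F z))
        (fun j => analyticAt_comb fun i hi => (hF i ⟨j, hi⟩).1) p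
    simp only [MvPolynomial.aeval_eq_eval] at h1
    exact h1
  | fn D φ isOpen analytic arg =>
    obtain ⟨h1, h2⟩ := h
    obtain ⟨ψ, hψ, hψφ⟩ := exists_global isOpen (f := φ)
      (fun n => analytic.contDiffOn isOpen.uniqueDiffOn) h1
    refine ⟨GOp.fn ψ (hψ d) arg, fun i h => h, ?_, ?_⟩
    · have h3 : Tendsto (fun p : (σ → ℝ) × (Fin s → ℝ) => fun j => (arg j).val p.1 p.2)
          (𝓝 (x, v)) (𝓝 fun j => (arg j).val x v) :=
        (continuous_pi fun j => continuous_comb (arg j)).tendsto (x, v)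
      filter_upwards [h3.eventually hψφ, h3.eventually (isOpen.mem_nhds h1)] with p h4 h5
      exact ⟨h5, h4⟩
    · intro F hF
      have h3 : AnalyticAt ℝ ψ fun j => (arg j).val x (F x) := by
        have h4 : (fun j => (arg j).val x (F x)) = fun j => (arg j).val x v := by
          funext j
          exact Comb.val_congr fun i hi => (hF i ⟨j, hi⟩).2
        rw [h4]
        exact (analytic _ h1).congr hψφ.symm
      have h4 : AnalyticAt ℝ (fun z => fun j => (arg j).val z (F z)) x := by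
        rw [analyticAt_pi_iff]
        exact fun j => analyticAt_comb fun i hi => (hF i ⟨j, hi⟩).1
      exact AnalyticAt.fun_comp (g := ψ) (f := fun z j => (arg j).val z (F z)) h3 h4

theorem rounds_stable {d : ℕ} {g : Fin s → GOp σ s m d cls} {depth : Fin s → ℕ}
    (hg : ∀ i i', (g i).Reads i' → depth i' < depth i) (x : σ → ℝ) :
    ∀ t i, depth i < t → rounds g (t + 1) x i = rounds g t x i := by
  intro t
  induction t with
  | zero => intro i hi; exact absurd hi (Nat.not_lt_zero _)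
  | succ t ih =>
    intro i hi
    exact GOp.val_congr fun i' hi' => ih i' ((hg i i' hi').trans_le (Nat.lt_succ_iff.1 hi))

/-- **The output is given by a smooth network near a point, and it is analytic.** -/
theorem Net.exists_rounds {Δ : ℕ} (P : Net σ s Δ m cls) (d : ℕ) {x : σ → ℝ} {y : ℝ}
    (h : P.Outputs x y) : ∃ g : Fin s → GOp σ s m d cls,
      (∀ᶠ z in 𝓝 x, P.Outputs z (P.out.val z (rounds g (Δ + 1) z))) ∧
      AnalyticAt ℝ (fun z => P.out.val z (rounds g (Δ + 1) z)) x := by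
  obtain ⟨v, hv, rfl⟩ := h
  choose g hg1 hg2 hg3 using fun i => (P.op i).exists_gop d (hv i)
  have hdep : ∀ i i', (g i).Reads i' → P.depth i' < P.depth i := fun i i' h =>
    P.reads i i' (hg1 i i' h)
  have hvx : ∀ i, (g i).val x v = v i := fun i => ((hg2 i).self_of_nhds).unique (hv i)
  have hr : ∀ t i, P.depth i < t → rounds g t x i = v i := rounds_eq hdep hvx
  have hrx : rounds g (Δ + 1) x = v := by
    funext i
    exact hr (Δ + 1) i (Nat.lt_succ_of_le (P.depth_le i))
  refine ⟨g, ?_, ?_⟩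
  · have h1 : Tendsto (fun z => (z, rounds g (Δ + 1) z)) (𝓝 x) (𝓝 (x, v)) := by
      have h2 : Continuous fun z => rounds g (Δ + 1) z :=
        continuous_pi fun i => (Snet.contDiff_rounds g (Δ + 1) i).continuous
      have h3 := (continuous_id.prodMk h2).tendsto x
      rw [hrx] at h3
      exact h3
    have h4 : ∀ᶠ z in 𝓝 x, ∀ i, (P.op i).Gives z (rounds g (Δ + 1) z)
        ((g i).val z (rounds g (Δ + 1) z)) := by
      rw [eventually_all]
      exact fun i => h1.eventually (hg2 i)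
    filter_upwards [h4] with z hz
    refine ⟨rounds g (Δ + 1) z, fun i => ?_, rfl⟩
    have h5 := hz i
    have h6 : (g i).val z (rounds g (Δ + 1) z) = rounds g (Δ + 1) z i :=
      rounds_stable hdep z (Δ + 1) i (Nat.lt_succ_of_le (P.depth_le i))
    rw [h6] at h5
    exact h5
  · refine analyticAt_comb fun i _ => ?_
    have key : ∀ t i, P.depth i < t → AnalyticAt ℝ (fun z => rounds g t z i) x := by
      intro t
      induction t with
      | zero => intro i hi; exact absurd hi (Nat.not_lt_zero _)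
      | succ t ih =>
        intro i hi
        refine hg3 i (rounds g t) fun i' hi' => ?_
        have h5 : P.depth i' < t := (P.reads i i' hi').trans_le (Nat.lt_succ_iff.1 hi)
        exact ⟨ih i' h5, hr t i' h5⟩
    exact key (Δ + 1) i (Nat.lt_succ_of_le (P.depth_le i))

section jets
variable {a b h : ℕ} {ϑ₀ : σ → SF (Fin b ⊕ Fin a) (FF a b h ℝ)}

/-- **The output function.** -/
theorem Net.good {Δ κ : ℕ} (P : Net σ s Δ m cls) {K : ℝ} (hκ : 1 ≤ κ) (hK : 0 ≤ K)
    (hcls : ∀ p ∈ cls, Mild a b h κ K p) (h0 : ∀ j, ϑ₀ j ∅ = 0) {T : ℕ → ℕ} (hT0 : 2 ≤ T 0)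
    (hTm : Monotone T) {ϑ : ℝ} (hϑ0 : 0 < ϑ)
    (hvar : ∀ j, Good (bitFrame a b h) (T 0) ϑ (ϑ₀ j))
    (hscale : ∀ k, k < κ * (Δ + 1) → ∃ z : ℝ, 0 ≤ z ∧ z ≤ 1 ∧ NumScale a b h (T k) z ∧
      z ^ (T (k + 1)) ≤ ϑ) {F : (σ → ℝ) → ℝ} {x : σ → ℝ}
    (hF : ∀ᶠ z in 𝓝 x, P.Outputs z (F z)) :
    AnalyticAt ℝ F x ∧ ∃ Q, PE (a + b) F x Q ∧
      Good (bitFrame a b h) (T (κ * (Δ + 1))) (((Fintype.card σ : ℝ) + s + 1) *
        (rcost (Fintype.card σ) s m (a + b) K ^ (Δ + 1) * ϑ)) (jet ϑ₀ Q) := by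
  classical
  obtain ⟨g, hg1, hg2⟩ := P.exists_rounds (a + b) hF.self_of_nhds
  have hFg : F =ᶠ[𝓝 x] fun z => P.out.val z (rounds g (Δ + 1) z) := by
    filter_upwards [hF, hg1] with z h1 h2
    exact h1.unique h2
  refine ⟨hg2.congr hFg.symm, ?_⟩
  have h1 := rounds_good (d := a + b) hκ hK hcls h0 hT0 hTm hϑ0 hvar hscale (x := x) g (Δ + 1)
    le_rfl
  choose Q hQ1 hQ2 using h1
  have hc1 : 1 ≤ rcost (Fintype.card σ) s m (a + b) K := one_le_rcost _ _ _ _ hK
  have h2 := comb_good (x := x) (by omega) (hTm (Nat.zero_le (κ * (Δ + 1)))) hϑ0.le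
    (le_mul_of_one_le_left hϑ0.le (one_le_pow₀ hc1)) hvar hQ2 P.out
  refine ⟨P.out.poly x Q, ?_, h2⟩
  have h3 : PE (a + b) (fun z => P.out.val z (rounds g (Δ + 1) z)) x (P.out.poly x Q) :=
    P.out.pe hQ1
  have h4 : ∀ᶠ y : σ → ℝ in 𝓝 0, F (x + y) =
      P.out.val (x + y) (rounds g (Δ + 1) (x + y)) := by
    have h5 : Tendsto (fun y : σ → ℝ => x + y) (𝓝 0) (𝓝 x) := by
      have h6 : Continuous fun y : σ → ℝ => x + y := continuous_const.add continuous_id
      have h7 := h6.tendsto 0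
      simp only [add_zero] at h7
      exact h7
    exact h5.eventually hFg
  refine Asymptotics.IsLittleO.congr' h3 ?_ EventuallyEq.rfl
  filter_upwards [h4] with y hy
  rw [hy]

end jets

end Pool.Agent.Y531.San
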