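import Pool.Agent.Y531.Smooth.Peano

/-!
# Integrals with parameters and division by a coordinate
-/

set_option autoImplicit false
set_option linter.unusedSectionVars false

namespace Pool.Agent.Y531.San

open MeasureTheory Topology Filter Pool.Agent.Y531.Smooth

section param
variable {E : Type} [NormedAddCommGroup E] [NormedSpace ℝ E] [FiniteDimensional ℝ E]
  {A : ℝ → E →L[ℝ] E}

/-- **Integrals with a parameter.** -/
theorem contDiff_param (hA : Continuous A) : ∀ (n : ℕ) {V W : Type} [NormedAddCommGroup V]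
    [NormedSpace ℝ V] [NormedAddCommGroup W] [NormedSpace ℝ W] [CompleteSpace W]
    (f : E → V) (B : ℝ → V →L[ℝ] W), Continuous B → ContDiff ℝ n f →
    ContDiff ℝ n (fun x => ∫ θ in (0:ℝ)..1, B θ (f (A θ x))) := by
  intro n
  induction n with
  | zero =>
    intro V W _ _ _ _ _ f B hB hf
    rw [Nat.cast_zero, contDiff_zero] at hf ⊢
    apply intervalIntegral.continuous_parametric_intervalIntegral_of_continuous'
    show Continuous fun p : E × ℝ => B p.2 (f (A p.2 p.1))
    exact (hB.comp continuous_snd).clm_apply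
      (hf.comp ((hA.comp continuous_snd).clm_apply continuous_fst))
  | succ n ih =>
    intro V W _ _ _ _ _ f B hB hf
    have hproper : ProperSpace E := FiniteDimensional.proper ℝ E
    have hfd : ContDiff ℝ n (fderiv ℝ f) := hf.fderiv_right (by norm_cast)
    let B' : ℝ → (E →L[ℝ] V) →L[ℝ] (E →L[ℝ] W) := fun θ =>
      (ContinuousLinearMap.compL ℝ E V W (B θ)).comp
        ((ContinuousLinearMap.compL ℝ E E V).flip (A θ))
    have hB' : Continuous B' := by
      refine Continuous.clm_comp ?_ ?_
      · exact (ContinuousLinearMap.compL ℝ E V W).continuous.comp hB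
      · exact (ContinuousLinearMap.compL ℝ E E V).flip.continuous.comp hA
    rw [Nat.cast_succ, contDiff_succ_iff_hasFDerivAt]
    refine ⟨_, ih (fderiv ℝ f) B' hB' hfd, fun x₀ => ?_⟩
    have hF : Continuous fun p : E × ℝ => B p.2 (f (A p.2 p.1)) :=
      (hB.comp continuous_snd).clm_apply
        (hf.continuous.comp ((hA.comp continuous_snd).clm_apply continuous_fst))
    have hF' : Continuous fun p : E × ℝ => B' p.2 (fderiv ℝ f (A p.2 p.1)) :=
      (hB'.comp continuous_snd).clm_apply
        (hfd.continuous.comp ((hA.comp continuous_snd).clm_apply continuous_fst))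
    obtain ⟨C, hC⟩ : ∃ C : ℝ, ∀ p ∈ Metric.closedBall x₀ 1 ×ˢ Set.Icc (0:ℝ) 1,
        ‖B' p.2 (fderiv ℝ f (A p.2 p.1))‖ ≤ C :=
      ((isCompact_closedBall x₀ 1).prod isCompact_Icc).exists_bound_of_continuousOn
        hF'.continuousOn
    refine intervalIntegral.hasFDerivAt_integral_of_dominated_of_fderiv_le
      (F := fun x θ => B θ (f (A θ x))) (F' := fun x θ => B' θ (fderiv ℝ f (A θ x)))
      (s := Metric.closedBall x₀ 1) (bound := fun _ => C)
      (Metric.closedBall_mem_nhds x₀ one_pos) ?_ ?_ ?_ ?_ ?_ ?_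
    · exact Eventually.of_forall fun x =>
        (hF.comp (Continuous.prodMk continuous_const continuous_id)).aestronglyMeasurable
    · exact (hF.comp (Continuous.prodMk continuous_const continuous_id)).intervalIntegrable _ _
    · exact (hF'.comp (Continuous.prodMk continuous_const continuous_id)).aestronglyMeasurable
    · refine Eventually.of_forall fun θ hθ x hx => hC (x, θ) ⟨hx, ?_⟩
      rw [Set.uIoc_of_le zero_le_one] at hθ
      exact ⟨hθ.1.le, hθ.2⟩
    · exact continuous_const.intervalIntegrable _ _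
    · refine Eventually.of_forall fun θ _ x _ => ?_
      have h1 : HasFDerivAt f (fderiv ℝ f (A θ x)) (A θ x) :=
        (hf.differentiable (by norm_cast) (A θ x)).hasFDerivAt
      have h2 := ((B θ).hasFDerivAt (x := f (A θ x))).comp x (h1.comp x (A θ).hasFDerivAt)
      exact h2

end param

variable {σ : Type} [Fintype σ] [DecidableEq σ]

/-- The coordinate `j` is multiplied by `θ`. -/
noncomputable def scal (j : σ) (θ : ℝ) : (σ → ℝ) →L[ℝ] (σ → ℝ) :=
  ContinuousLinearMap.id ℝ (σ → ℝ) +
    (θ - 1) • (ContinuousLinearMap.single ℝ (fun _ : σ => ℝ) j).comp (ContinuousLinearMap.proj j)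

theorem scal_apply (j : σ) (θ : ℝ) (x : σ → ℝ) :
    scal j θ x = x + ((θ - 1) * x j) • Pi.single j 1 := by
  rw [scal]
  ext i
  simp [Pi.single_apply, mul_comm]

theorem continuous_scal (j : σ) : Continuous (scal (σ := σ) j) := by
  unfold scal
  fun_prop

theorem scal_one (j : σ) (x : σ → ℝ) : scal j 1 x = x := by
  rw [scal_apply]; simp

theorem scal_zero_apply (j : σ) (x : σ → ℝ) (hx : x j = 0) (θ : ℝ) : scal j θ x = x := by
  rw [scal_apply, hx, mul_zero, zero_smul, add_zero]

theorem scal_self (j : σ) (θ : ℝ) (x : σ → ℝ) : scal j θ x j = θ * x j := by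
  rw [scal_apply]
  simp
  ring

/-- The quotient by the coordinate `j`. -/
noncomputable def quo (j : σ) (f : (σ → ℝ) → ℝ) (x : σ → ℝ) : ℝ :=
  ∫ θ in (0:ℝ)..1, pd j f (scal j θ x)

theorem contDiff_quo (j : σ) {f : (σ → ℝ) → ℝ} {n : ℕ} (hf : ContDiff ℝ (n + 1 : ℕ) f) :
    ContDiff ℝ n (quo j f) := by
  have h1 := contDiff_param (continuous_scal (σ := σ) j) n (pd j f)
    (fun _ => ContinuousLinearMap.id ℝ ℝ) continuous_const (contDiff_pd hf j)
  exact h1

theorem contDiff_quo' (j : σ) {f : (σ → ℝ) → ℝ} (hf : ∀ n : ℕ, ContDiff ℝ n f) :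
    ∀ n : ℕ, ContDiff ℝ n (quo j f) := fun n => contDiff_quo j (hf (n + 1))

/-- **Division by a coordinate.** -/
theorem eq_quo (j : σ) {f : (σ → ℝ) → ℝ} (hf : ContDiff ℝ 1 f) (x : σ → ℝ) :
    f x = f (scal j 0 x) + x j * quo j f x := by
  have h1 : ∀ θ : ℝ, HasDerivAt (fun θ : ℝ => f (scal j θ x)) (x j * pd j f (scal j θ x)) θ := by
    intro θ
    have h2 : HasDerivAt (fun θ : ℝ => scal j θ x) (x j • Pi.single j (1:ℝ)) θ := by
      simp only [scal_apply]
      refine HasDerivAt.const_add _ ?_
      refine HasDerivAt.smul_const ?_ _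
      have := ((hasDerivAt_id θ).sub_const 1).mul_const (x j)
      simpa using this
    have h3 := ((hf.differentiable (by norm_num) (scal j θ x)).hasFDerivAt).comp_hasDerivAt θ h2
    rw [map_smul, smul_eq_mul] at h3
    exact h3
  have h2 : Continuous fun θ : ℝ => x j * pd j f (scal j θ x) := by
    have h3 : Continuous (pd j f) :=
      (contDiff_pd (d := 0) (by simpa using hf) j).continuous
    exact continuous_const.mul (h3.comp ((continuous_scal j).clm_apply continuous_const))
  have h3 := intervalIntegral.integral_eq_sub_of_hasDerivAt (a := 0) (b := 1)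
    (fun θ _ => h1 θ) (h2.intervalIntegrable _ _)
  rw [intervalIntegral.integral_const_mul, scal_one] at h3
  rw [quo, h3]
  ring

/-- The iterated quotients. -/
noncomputable def quos (j : σ) (f : (σ → ℝ) → ℝ) : ℕ → (σ → ℝ) → ℝ
  | 0 => f
  | k + 1 => quo j (quos j f k)

theorem contDiff_quos (j : σ) {f : (σ → ℝ) → ℝ} (hf : ∀ n : ℕ, ContDiff ℝ n f) :
    ∀ k, ∀ n : ℕ, ContDiff ℝ n (quos j f k)
  | 0 => hf
  | k + 1 => contDiff_quo' j (contDiff_quos j hf k)

/-- **The expansion in a coordinate.** -/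
theorem eq_quos (j : σ) {f : (σ → ℝ) → ℝ} (hf : ∀ n : ℕ, ContDiff ℝ n f) (k : ℕ)
    (x : σ → ℝ) (hx : ∀ i < k, quos j f i (scal j 0 x) = 0) :
    f x = x j ^ k * quos j f k x := by
  induction k with
  | zero => rw [pow_zero, one_mul, quos]
  | succ k ih =>
    rw [ih fun i hi => hx i (by omega)]
    have h1 := eq_quo j (f := quos j f k) (by exact_mod_cast contDiff_quos j hf k 1) x
    rw [hx k (by omega), zero_add] at h1
    rw [h1, pow_succ, mul_assoc]
    rfl

end Pool.Agent.Y531.San
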